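import Mathlib

/-!
# Pruning and pigeonhole
-/

set_option autoImplicit false

open Finset

namespace Pool.Agent.H99DD

/-- Removing the vertices of small degree. -/
theorem prune {α β : Type*} [DecidableEq β] (E : Finset α) (f : Fin 4 → α → β)
    (N d : ℕ) (hN : ∀ s, (E.image (f s)).card ≤ N) (h : 4 * d * N < E.card) :
    ∃ E' ⊆ E, E'.Nonempty ∧ ∀ s, ∀ e ∈ E', d ≤ (E'.filter (fun e' => f s e' = f s e)).card := by
  classical
  set Φ : Finset α → ℤ := fun G => (G.card : ℤ) - d * ∑ s, ((G.image (f s)).card : ℤ) with hΦ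
  obtain ⟨E', hE', hmax⟩ := Finset.exists_max_image E.powerset Φ ⟨E, Finset.mem_powerset_self E⟩
  rw [Finset.mem_powerset] at hE'
  refine ⟨E', hE', ?_, ?_⟩
  · rw [Finset.nonempty_iff_ne_empty]
    rintro rfl
    have h1 := hmax E (Finset.mem_powerset_self E)
    have h2 : Φ ∅ = 0 := by simp [hΦ]
    have h3 : ∑ s, ((E.image (f s)).card : ℤ) ≤ 4 * N := by
      calc ∑ s, ((E.image (f s)).card : ℤ) ≤ ∑ _s : Fin 4, (N : ℤ) :=
            Finset.sum_le_sum fun s _ => by exact_mod_cast hN s
        _ = 4 * N := by simp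
    have h4 : (d : ℤ) * ∑ s, ((E.image (f s)).card : ℤ) ≤ d * (4 * N) :=
      mul_le_mul_of_nonneg_left h3 (by positivity)
    have h5 : (4 * d * N : ℤ) < E.card := by exact_mod_cast h
    rw [h2] at h1
    simp only [hΦ] at h1
    linarith
  · intro s e he
    set G := E'.filter (fun e' => ¬ f s e' = f s e) with hG
    have hGE : G ⊆ E' := Finset.filter_subset _ _
    have h1 := hmax G (Finset.mem_powerset.2 (hGE.trans hE'))
    have hcard : (E'.filter (fun e' => f s e' = f s e)).card + G.card = E'.card :=
      Finset.card_filter_add_card_filter_not _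
    have hsum : ∑ t, ((G.image (f t)).card : ℤ) + 1 ≤ ∑ t, ((E'.image (f t)).card : ℤ) := by
      have hs : (G.image (f s)).card + 1 ≤ (E'.image (f s)).card := by
        have hsub : G.image (f s) ⊆ (E'.image (f s)).erase (f s e) := by
          intro v hv
          obtain ⟨g, hg, rfl⟩ := Finset.mem_image.1 hv
          rw [Finset.mem_erase]
          exact ⟨(Finset.mem_filter.1 hg).2, Finset.mem_image_of_mem _ (hGE hg)⟩
        have h3 := Finset.card_le_card hsub
        rw [Finset.card_erase_of_mem (Finset.mem_image_of_mem _ he)] at h3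
        have h4 : 0 < (E'.image (f s)).card := Finset.card_pos.2 ⟨_, Finset.mem_image_of_mem _ he⟩
        omega
      have hrest : ∀ t, ((G.image (f t)).card : ℤ) ≤ ((E'.image (f t)).card : ℤ) := fun t => by
        exact_mod_cast Finset.card_le_card (Finset.image_subset_image hGE)
      rw [← Finset.add_sum_erase _ _ (Finset.mem_univ s),
        ← Finset.add_sum_erase (Finset.univ) (fun t => ((E'.image (f t)).card : ℤ))
          (Finset.mem_univ s)]
      have h5 := Finset.sum_le_sum (s := Finset.univ.erase s) (fun t _ => hrest t)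
      have h6 : ((G.image (f s)).card : ℤ) + 1 ≤ ((E'.image (f s)).card : ℤ) := by exact_mod_cast hs
      linarith
    have h2 : (d : ℤ) * (∑ t, ((G.image (f t)).card : ℤ) + 1) ≤
        d * ∑ t, ((E'.image (f t)).card : ℤ) := mul_le_mul_of_nonneg_left hsum (by positivity)
    simp only [hΦ] at h1
    have h7 : ((E'.filter (fun e' => f s e' = f s e)).card : ℤ) + G.card = E'.card := by
      exact_mod_cast hcard
    have h8 : (d : ℤ) ≤ ((E'.filter (fun e' => f s e' = f s e)).card : ℤ) := by linarith
    exact_mod_cast h8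

/-- A popular quadruple of colours. -/
theorem popular {α γ : Type*} [DecidableEq γ] (E : Finset α) (col : Fin 4 → α → γ) (T : Finset γ)
    (hT : ∀ s, ∀ e ∈ E, col s e ∈ T) (hE : E.Nonempty) :
    ∃ κ : Fin 4 → γ, E.card ≤ T.card ^ 4 * (E.filter (fun e => ∀ s, col s e = κ s)).card := by
  classical
  have hmaps : ∀ e ∈ E, (fun s => col s e) ∈ Fintype.piFinset (fun _ : Fin 4 => T) := fun e he =>
    Fintype.mem_piFinset.2 fun s => hT s e he
  obtain ⟨e0, he0⟩ := hE
  have hne : (Fintype.piFinset (fun _ : Fin 4 => T)).Nonempty := ⟨_, hmaps e0 he0⟩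
  by_contra hcon
  push Not at hcon
  have h1 : E.card = ∑ κ ∈ Fintype.piFinset (fun _ : Fin 4 => T),
      (E.filter (fun e => (fun s => col s e) = κ)).card :=
    Finset.card_eq_sum_card_fiberwise hmaps
  have hc : (Fintype.piFinset (fun _ : Fin 4 => T)).card = T.card ^ 4 := by
    simp
  have hpos : 0 < T.card ^ 4 := by
    rw [← hc]
    exact Finset.card_pos.2 hne
  have h2 : T.card ^ 4 * E.card < T.card ^ 4 * E.card := by
    calc T.card ^ 4 * E.card = ∑ κ ∈ Fintype.piFinset (fun _ : Fin 4 => T),
          T.card ^ 4 * (E.filter (fun e => (fun s => col s e) = κ)).card := by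
          rw [← Finset.mul_sum, ← h1]
      _ < ∑ κ ∈ Fintype.piFinset (fun _ : Fin 4 => T), E.card := by
          refine Finset.sum_lt_sum_of_nonempty hne fun κ _ => ?_
          have := hcon κ
          have heq : E.filter (fun e => (fun s => col s e) = κ) =
              E.filter (fun e => ∀ s, col s e = κ s) :=
            Finset.filter_congr fun e _ => funext_iff
          rw [heq]
          exact this
      _ = T.card ^ 4 * E.card := by rw [Finset.sum_const, hc, smul_eq_mul]
  exact lt_irrefl _ h2

end Pool.Agent.H99DD
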