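import Mathlib

/-!
# The ring `ℤ[θ]` with `θ⁴ = 2`, its complex and its real place

Elements `a + b σ + (c + d σ) θ` with `σ = θ²`.  Complex place: `θ = i 2^{1/4}`, real place:
`θ = 2^{1/4}`.
-/

set_option autoImplicit false

open Finset

namespace Pool.Agent.H99DD

/-- the ring `ℤ[θ]` -/
@[ext]
structure Q4 where
  a : ℤ
  b : ℤ
  c : ℤ
  d : ℤ
deriving DecidableEq

namespace Q4

instance : Zero Q4 := ⟨⟨0, 0, 0, 0⟩⟩
instance : One Q4 := ⟨⟨1, 0, 0, 0⟩⟩
instance : Add Q4 := ⟨fun x y => ⟨x.a + y.a, x.b + y.b, x.c + y.c, x.d + y.d⟩⟩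
instance : Neg Q4 := ⟨fun x => ⟨-x.a, -x.b, -x.c, -x.d⟩⟩
instance : Mul Q4 := ⟨fun x y =>
  ⟨x.a * y.a + 2 * x.b * y.b + 2 * (x.c * y.d + x.d * y.c),
   x.a * y.b + x.b * y.a + x.c * y.c + 2 * x.d * y.d,
   x.a * y.c + 2 * x.b * y.d + x.c * y.a + 2 * x.d * y.b,
   x.a * y.d + x.b * y.c + x.c * y.b + x.d * y.a⟩⟩

@[simp] theorem zero_a : (0 : Q4).a = 0 := rfl
@[simp] theorem zero_b : (0 : Q4).b = 0 := rfl
@[simp] theorem zero_c : (0 : Q4).c = 0 := rfl
@[simp] theorem zero_d : (0 : Q4).d = 0 := rfl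
@[simp] theorem one_a : (1 : Q4).a = 1 := rfl
@[simp] theorem one_b : (1 : Q4).b = 0 := rfl
@[simp] theorem one_c : (1 : Q4).c = 0 := rfl
@[simp] theorem one_d : (1 : Q4).d = 0 := rfl
@[simp] theorem add_a (x y : Q4) : (x + y).a = x.a + y.a := rfl
@[simp] theorem add_b (x y : Q4) : (x + y).b = x.b + y.b := rfl
@[simp] theorem add_c (x y : Q4) : (x + y).c = x.c + y.c := rfl
@[simp] theorem add_d (x y : Q4) : (x + y).d = x.d + y.d := rfl
@[simp] theorem neg_a (x : Q4) : (-x).a = -x.a := rfl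
@[simp] theorem neg_b (x : Q4) : (-x).b = -x.b := rfl
@[simp] theorem neg_c (x : Q4) : (-x).c = -x.c := rfl
@[simp] theorem neg_d (x : Q4) : (-x).d = -x.d := rfl
@[simp] theorem mul_a (x y : Q4) : (x * y).a = x.a * y.a + 2 * x.b * y.b + 2 * (x.c * y.d + x.d * y.c) := rfl
@[simp] theorem mul_b (x y : Q4) : (x * y).b = x.a * y.b + x.b * y.a + x.c * y.c + 2 * x.d * y.d := rfl
@[simp] theorem mul_c (x y : Q4) : (x * y).c = x.a * y.c + 2 * x.b * y.d + x.c * y.a + 2 * x.d * y.b := rfl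
@[simp] theorem mul_d (x y : Q4) : (x * y).d = x.a * y.d + x.b * y.c + x.c * y.b + x.d * y.a := rfl

instance : CommRing Q4 where
  add_assoc x y z := by ext <;> simp <;> ring
  zero_add x := by ext <;> simp
  add_zero x := by ext <;> simp
  add_comm x y := by ext <;> simp <;> ring
  left_distrib x y z := by ext <;> simp <;> ring
  right_distrib x y z := by ext <;> simp <;> ring
  zero_mul x := by ext <;> simp
  mul_zero x := by ext <;> simp
  mul_assoc x y z := by ext <;> simp <;> ring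
  one_mul x := by ext <;> simp
  mul_one x := by ext <;> simp
  neg_add_cancel x := by ext <;> simp
  mul_comm x y := by ext <;> simp <;> ring
  nsmul := nsmulRec
  zsmul := zsmulRec

@[simp] theorem sub_a (x y : Q4) : (x - y).a = x.a - y.a := by rw [sub_eq_add_neg]; rfl
@[simp] theorem sub_b (x y : Q4) : (x - y).b = x.b - y.b := by rw [sub_eq_add_neg]; rfl
@[simp] theorem sub_c (x y : Q4) : (x - y).c = x.c - y.c := by rw [sub_eq_add_neg]; rfl
@[simp] theorem sub_d (x y : Q4) : (x - y).d = x.d - y.d := by rw [sub_eq_add_neg]; rfl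

/-- the element `θ` -/
def th : Q4 := ⟨0, 0, 1, 0⟩

/-- the fourth root of two -/
noncomputable def rho : ℝ := √(√2)

theorem rho_pos : 0 < rho := Real.sqrt_pos.2 (Real.sqrt_pos.2 (by norm_num))

theorem rho_sq : rho ^ 2 = √2 := Real.sq_sqrt (Real.sqrt_nonneg 2)

theorem sqrt_two_sq : (√2 : ℝ) ^ 2 = 2 := Real.sq_sqrt (by norm_num)

/-- the complex place -/
noncomputable def phi : Q4 →+* ℂ where
  toFun x := ((x.a - x.b * √2 : ℝ) : ℂ) + ((x.c - x.d * √2) * rho : ℝ) * Complex.I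
  map_zero' := by simp
  map_one' := by simp
  map_add' x y := by
    apply Complex.ext <;> simp <;> ring
  map_mul' x y := by
    have h1 := rho_sq
    have h2 := sqrt_two_sq
    apply Complex.ext
    · simp
      linear_combination (-(x.b * y.b : ℝ) + 2 * 0) * h2 +
        ((x.c - x.d * √2) * (y.c - y.d * √2)) * h1 +
        ((x.d * y.d : ℝ) * √2 - x.c * y.d - x.d * y.c) * h2
    · simp
      linear_combination (-(x.b * y.d : ℝ) - x.d * y.b) * rho * h2

/-- the real place -/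
noncomputable def psi : Q4 →+* ℝ where
  toFun x := (x.a + x.b * √2 : ℝ) + (x.c + x.d * √2) * rho
  map_zero' := by simp
  map_one' := by simp
  map_add' x y := by
    simp
    ring
  map_mul' x y := by
    have h1 := rho_sq
    have h2 := sqrt_two_sq
    simp
    linear_combination (-(x.b * y.b : ℝ)) * h2 - ((x.c + x.d * √2) * (y.c + y.d * √2)) * h1
      - ((x.d * y.d : ℝ) * √2 + x.c * y.d + x.d * y.c) * h2
      - ((x.b * y.d : ℝ) + x.d * y.b) * rho * h2

theorem phi_apply (x : Q4) : phi x = ((x.a - x.b * √2 : ℝ) : ℂ) +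
    ((x.c - x.d * √2) * rho : ℝ) * Complex.I := rfl

theorem psi_apply (x : Q4) : psi x = (x.a + x.b * √2 : ℝ) + (x.c + x.d * √2) * rho := rfl

theorem irr {u v : ℤ} (h : (u : ℝ) + v * √2 = 0) : u = 0 ∧ v = 0 := by
  have hv : v = 0 := by
    by_contra hv
    have hv' : (v : ℝ) ≠ 0 := by exact_mod_cast hv
    apply irrational_sqrt_two
    refine ⟨-(u : ℚ) / v, ?_⟩
    push_cast
    field_simp
    linear_combination -h
  refine ⟨?_, hv⟩
  rw [hv] at h
  simpa using h

theorem irr' {u v : ℤ} (h : (u : ℝ) - v * √2 = 0) : u = 0 ∧ v = 0 := by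
  have := irr (u := u) (v := -v) (by push_cast; linear_combination h)
  exact ⟨this.1, by simpa using this.2⟩

theorem phi_inj : Function.Injective phi := by
  rw [injective_iff_map_eq_zero]
  intro x hx
  rw [phi_apply] at hx
  have h1 := congrArg Complex.re hx
  have h2 := congrArg Complex.im hx
  simp only [Complex.add_re, Complex.ofReal_re, Complex.re_ofReal_mul, Complex.I_re, mul_zero,
    add_zero, Complex.zero_re] at h1
  simp only [Complex.add_im, Complex.ofReal_im, Complex.im_ofReal_mul, Complex.I_im, mul_one,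
    zero_add, Complex.zero_im] at h2
  have h3 := irr' h1
  have h4 := irr' ((mul_eq_zero.1 h2).resolve_right rho_pos.ne')
  ext
  · exact h3.1
  · exact h3.2
  · exact h4.1
  · exact h4.2

theorem psi_inj : Function.Injective psi := by
  rw [injective_iff_map_eq_zero]
  intro x hx
  rw [psi_apply] at hx
  have h1 := rho_sq
  have h2 := sqrt_two_sq
  -- square
  have h3 : ((x.a ^ 2 + 2 * x.b ^ 2 - 4 * x.c * x.d : ℤ) : ℝ) +
      ((2 * x.a * x.b - x.c ^ 2 - 2 * x.d ^ 2 : ℤ) : ℝ) * √2 = 0 := by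
    push_cast
    have h4 : (x.a + x.b * √2 : ℝ) = -((x.c + x.d * √2) * rho) := by linear_combination hx
    have h5 : (x.a + x.b * √2 : ℝ) ^ 2 = (x.c + x.d * √2) ^ 2 * √2 := by
      rw [h4, neg_sq, mul_pow, h1]
    linear_combination h5 - (x.b : ℝ) ^ 2 * h2 + ((x.d : ℝ) ^ 2 * √2 + 2 * x.c * x.d) * h2
  obtain ⟨h4, h5⟩ := irr h3
  have h4' : (x.a : ℝ) ^ 2 + 2 * x.b ^ 2 - 4 * x.c * x.d = 0 := by exact_mod_cast h4
  have h5' : 2 * (x.a : ℝ) * x.b - x.c ^ 2 - 2 * x.d ^ 2 = 0 := by exact_mod_cast h5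
  have h6 : (x.a - x.b * √2 : ℝ) ^ 2 + √2 * (x.c - x.d * √2) ^ 2 = 0 := by
    linear_combination h4' - √2 * h5' + (x.b : ℝ) ^ 2 * h2 +
      (-2 * x.c * x.d + (x.d : ℝ) ^ 2 * √2) * h2
  have hs : (0 : ℝ) < √2 := Real.sqrt_pos.2 (by norm_num)
  have h7 : (x.a - x.b * √2 : ℝ) ^ 2 = 0 := by
    nlinarith [sq_nonneg (x.a - x.b * √2 : ℝ), mul_nonneg hs.le (sq_nonneg (x.c - x.d * √2 : ℝ))]
  have h8 : √2 * (x.c - x.d * √2 : ℝ) ^ 2 = 0 := by
    nlinarith [sq_nonneg (x.a - x.b * √2 : ℝ), mul_nonneg hs.le (sq_nonneg (x.c - x.d * √2 : ℝ))]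
  have h9 := irr' (pow_eq_zero_iff (two_ne_zero) |>.1 h7)
  have h10 := irr' (pow_eq_zero_iff (two_ne_zero) |>.1 ((mul_eq_zero.1 h8).resolve_left hs.ne'))
  ext
  · exact h9.1
  · exact h9.2
  · exact h10.1
  · exact h10.2

theorem phi_th : phi th = rho * Complex.I := by
  rw [phi_apply]
  simp [th]

end Q4

/-- three collinear points on a sphere -/
theorem real_sphere {ι : Type*} [Fintype ι] (X Y Z : ι → ℝ) (h1 : ∑ i, Y i ^ 2 = ∑ i, X i ^ 2)
    (h2 : ∑ i, Z i ^ 2 = ∑ i, X i ^ 2)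
    (h : ∀ i j, (Y i - X i) * (Z j - X j) = (Y j - X j) * (Z i - X i)) :
    X = Y ∨ X = Z ∨ Y = Z := by
  by_cases hXY : X = Y
  · exact Or.inl hXY
  obtain ⟨k, hk⟩ := Function.ne_iff.1 hXY
  have hk' : Y k - X k ≠ 0 := sub_ne_zero.2 (Ne.symm hk)
  set t : ℝ := (Z k - X k) / (Y k - X k) with ht
  have hZ : ∀ j, Z j = X j + t * (Y j - X j) := by
    intro j
    rw [ht]
    field_simp
    linear_combination h k j
  have e1 : ∑ i, (Y i - X i) ^ 2 + 2 * ∑ i, X i * (Y i - X i) = 0 := by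
    have : ∑ i, Y i ^ 2 = ∑ i, X i ^ 2 + (∑ i, (Y i - X i) ^ 2 + 2 * ∑ i, X i * (Y i - X i)) := by
      rw [Finset.mul_sum, ← Finset.sum_add_distrib, ← Finset.sum_add_distrib]
      exact Finset.sum_congr rfl fun i _ => by ring
    linarith
  have e2 : t ^ 2 * ∑ i, (Y i - X i) ^ 2 + 2 * t * ∑ i, X i * (Y i - X i) = 0 := by
    have : ∑ i, Z i ^ 2 = ∑ i, X i ^ 2 +
        (t ^ 2 * ∑ i, (Y i - X i) ^ 2 + 2 * t * ∑ i, X i * (Y i - X i)) := by
      rw [Finset.mul_sum, Finset.mul_sum, ← Finset.sum_add_distrib, ← Finset.sum_add_distrib]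
      exact Finset.sum_congr rfl fun i _ => by rw [hZ i]; ring
    linarith
  have e3 : t * (t - 1) * ∑ i, (Y i - X i) ^ 2 = 0 := by
    linear_combination e2 - t * e1
  have hpos : 0 < ∑ i, (Y i - X i) ^ 2 :=
    Finset.sum_pos' (fun i _ => sq_nonneg _) ⟨k, Finset.mem_univ _, by positivity⟩
  rcases mul_eq_zero.1 e3 with h3 | h3
  · rcases mul_eq_zero.1 h3 with h4 | h4
    · right; left
      funext j
      rw [hZ j, h4]
      ring
    · right; right
      funext j
      have : t = 1 := by linarith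
      rw [hZ j, this]
      ring
  · exact absurd h3 hpos.ne'

/-- three points of one colour class on a complex line -/
theorem colour_line {ι : Type*} [Fintype ι] (x y z : ι → Q4) (h1 : ∑ i, y i ^ 2 = ∑ i, x i ^ 2)
    (h2 : ∑ i, z i ^ 2 = ∑ i, x i ^ 2)
    (h : ∀ i j, Q4.phi (y i - x i) * Q4.phi (z j - x j) =
      Q4.phi (y j - x j) * Q4.phi (z i - x i)) :
    x = y ∨ x = z ∨ y = z := by
  have h3 : ∀ i j, (y i - x i) * (z j - x j) = (y j - x j) * (z i - x i) := by
    intro i j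
    apply Q4.phi_inj
    rw [map_mul, map_mul]
    exact h i j
  have key := real_sphere (fun i => Q4.psi (x i)) (fun i => Q4.psi (y i)) (fun i => Q4.psi (z i))
    (by
      have := congrArg Q4.psi h1
      simpa only [map_sum, map_pow] using this)
    (by
      have := congrArg Q4.psi h2
      simpa only [map_sum, map_pow] using this)
    (by
      intro i j
      have := congrArg Q4.psi (h3 i j)
      simpa only [map_mul, map_sub] using this)
  rcases key with h4 | h4 | h4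
  · exact Or.inl (funext fun i => Q4.psi_inj (congrFun h4 i))
  · exact Or.inr (Or.inl (funext fun i => Q4.psi_inj (congrFun h4 i)))
  · exact Or.inr (Or.inr (funext fun i => Q4.psi_inj (congrFun h4 i)))

end Pool.Agent.H99DD
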