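import Pool.Agent.H99DD.Gen
import Pool.Agent.H99DD.Ring
import Pool.Agent.H99DD.Comb

/-!
# The points of the construction
-/

set_option autoImplicit false

open Finset

namespace Pool.Agent.H99DD

/-- the slots: the vertices of a rhombus -/
def sl : Fin 4 → Q4 := ![1, -1, Q4.th, -Q4.th]

/-- the vertices of the rhombus in the complex plane -/
noncomputable def V (s : Fin 4) : ℂ := Q4.phi (sl s)

theorem V0 : V 0 = 1 := by simp [V, sl]
theorem V1 : V 1 = -1 := by simp [V, sl]
theorem V2 : V 2 = Q4.rho * Complex.I := by simp [V, sl, Q4.phi_th]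
theorem V3 : V 3 = -(Q4.rho * Complex.I) := by simp [V, sl, Q4.phi_th]

theorem rho4 : Q4.rho ^ 4 = 2 := by
  have h : Q4.rho ^ 4 = (Q4.rho ^ 2) ^ 2 := by ring
  rw [h, Q4.rho_sq, Q4.sqrt_two_sq]

theorem rho_one : 1 < Q4.rho := by
  by_contra h
  push Not at h
  have h1 := Q4.rho_pos
  have h2 : Q4.rho ^ 4 ≤ 1 := pow_le_one₀ h1.le h
  rw [rho4] at h2
  norm_num at h2

theorem rho_sq_lt : Q4.rho ^ 2 < 3 / 2 := by
  rw [Q4.rho_sq, Real.sqrt_lt' (by norm_num)]
  norm_num

theorem V_inj : Function.Injective V := by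
  have h1 := Q4.rho_pos
  have key : ∀ s t, s ≠ t → V s ≠ V t := by
    intro s t hst h
    have hre := congrArg Complex.re h
    have him := congrArg Complex.im h
    fin_cases s <;> fin_cases t <;>
      simp [V0, V1, V2, V3] at hst hre him <;> linarith
  intro s t h
  by_contra hst
  exact key s t hst h

/-- no three vertices are collinear -/
theorem V_collinear {s t u : Fin 4} (hst : s ≠ t) (hsu : s ≠ u) (htu : t ≠ u) (r : ℝ)
    (h : V u - V s = r * (V t - V s)) : False := by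
  have h1 := Q4.rho_pos
  have hre := congrArg Complex.re h
  have him := congrArg Complex.im h
  fin_cases s <;> fin_cases t <;> fin_cases u <;>
    simp [V0, V1, V2, V3] at hst hsu htu hre him <;>
    first
    | linarith
    | (rcases him with h | h <;> linarith)
    | (have hr : r = 0 := by nlinarith
       subst hr
       linarith)

/-- the distances of adjacent vertices -/
theorem V_adj {s t : Fin 4} (hs : s = 0 ∨ s = 1) (ht : t = 2 ∨ t = 3) :
    ‖V s - V t‖ ^ 2 = 1 + Q4.rho ^ 2 := by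
  rw [← Complex.normSq_eq_norm_sq, Complex.normSq_apply]
  rcases hs with rfl | rfl <;> rcases ht with rfl | rfl <;> simp [V0, V1, V2, V3] <;> ring

/-- no vertex is equidistant from the three others -/
theorem V_star {s : Fin 4} {R : ℝ} (h : ∀ t, t ≠ s → ‖V t - V s‖ = R) : False := by
  have h1 := rho_sq_lt
  have h0 := rho_one
  have hadj : ∀ {s t : Fin 4}, (s = 0 ∨ s = 1) → (t = 2 ∨ t = 3) →
      ‖V s - V t‖ ^ 2 = 1 + Q4.rho ^ 2 := fun hs ht => V_adj hs ht
  have h01 : ‖V 0 - V 1‖ ^ 2 = 4 := by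
    rw [← Complex.normSq_eq_norm_sq, Complex.normSq_apply]
    simp [V0, V1]
    norm_num
  have h23 : ‖V 2 - V 3‖ ^ 2 = 4 * Q4.rho ^ 2 := by
    rw [← Complex.normSq_eq_norm_sq, Complex.normSq_apply]
    simp [V2, V3]
    ring
  have hs : s = 0 ∨ s = 1 ∨ s = 2 ∨ s = 3 := by fin_cases s <;> simp
  rcases hs with rfl | rfl | rfl | rfl
  · have e1 := h 1 (by decide)
    have e2 := h 2 (by decide)
    rw [norm_sub_rev] at e1 e2
    have e3 := hadj (s := 0) (t := 2) (Or.inl rfl) (Or.inl rfl)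
    rw [e1] at h01
    rw [e2] at e3
    nlinarith
  · have e1 := h 0 (by decide)
    have e2 := h 2 (by decide)
    rw [norm_sub_rev] at e2
    have e3 := hadj (s := 1) (t := 2) (Or.inr rfl) (Or.inl rfl)
    rw [e1] at h01
    rw [e2] at e3
    nlinarith
  · have e1 := h 3 (by decide)
    have e2 := h 0 (by decide)
    rw [norm_sub_rev] at e1
    have e3 := hadj (s := 0) (t := 2) (Or.inl rfl) (Or.inl rfl)
    rw [e1] at h23
    rw [e2] at e3
    nlinarith
  · have e1 := h 2 (by decide)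
    have e2 := h 0 (by decide)
    have e3 := hadj (s := 0) (t := 3) (Or.inl rfl) (Or.inr rfl)
    rw [e1] at h23
    rw [e2] at e3
    nlinarith

/-- the vertices are not concyclic -/
theorem V_circle {o : ℂ} {R : ℝ} (h : ∀ t, ‖V t - o‖ = R) : False := by
  have e : ∀ t, (V t - o).re * (V t - o).re + (V t - o).im * (V t - o).im = R ^ 2 := by
    intro t
    rw [← Complex.normSq_apply, Complex.normSq_eq_norm_sq, h t]
  have e0 := e 0
  have e1 := e 1
  have e2 := e 2
  have e3 := e 3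
  simp [V0, V1, V2, V3] at e0 e1 e2 e3
  have h0 := rho_one
  have h1 : o.re = 0 := by nlinarith
  have h2 : Q4.rho * o.im = 0 := by nlinarith
  have h3 : o.im = 0 := by
    rcases mul_eq_zero.1 h2 with h | h
    · linarith
    · exact h
  rw [h1, h3] at e0 e2
  nlinarith

variable {m : ℕ}

/-- the vectors -/
noncomputable def vec (q : Fin 4 × (Fin m → Q4)) : Option (Fin m) → ℂ :=
  fun o => o.elim (V q.1) (fun j => Q4.phi (q.2 j))

theorem vec_none (q : Fin 4 × (Fin m → Q4)) : vec q none = V q.1 := rfl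

theorem vec_some (q : Fin 4 × (Fin m → Q4)) (j : Fin m) : vec q (some j) = Q4.phi (q.2 j) := rfl

theorem vec_inj : Function.Injective (vec (m := m)) := by
  intro q q' h
  have h1 := congrFun h none
  rw [vec_none, vec_none] at h1
  refine Prod.ext (V_inj h1) (funext fun j => Q4.phi_inj ?_)
  have h2 := congrFun h (some j)
  rwa [vec_some, vec_some] at h2

/-- colour classes -/
def Col (S : Finset (Fin 4 × (Fin m → Q4))) (K : Fin 4 → Q4) : Prop :=
  ∀ q ∈ S, ∑ j, q.2 j ^ 2 = K q.1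

/-- Points of a colour class on a complex line are in different slots. -/
theorem slot {S : Finset (Fin 4 × (Fin m → Q4))} {K : Fin 4 → Q4} (hS : Col S K)
    {x y z : Fin 4 × (Fin m → Q4)} (hx : x ∈ S) (hy : y ∈ S) (hz : z ∈ S) (hxy : x ≠ y)
    (hxz : x ≠ z) (hyz : y ≠ z) {o b : Option (Fin m) → ℂ} {t1 t2 t3 : ℂ}
    (h1 : vec x = o + t1 • b) (h2 : vec y = o + t2 • b) (h3 : vec z = o + t3 • b) :
    x.1 ≠ y.1 := by
  intro hs
  have ht : t1 ≠ t2 := by
    intro ht
    apply hxy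
    apply vec_inj
    rw [h1, h2, ht]
  have e1 := congrFun h1 none
  have e2 := congrFun h2 none
  have e3 := congrFun h3 none
  simp only [vec_none, Pi.add_apply, Pi.smul_apply, smul_eq_mul] at e1 e2 e3
  rw [← hs] at e2
  have hb : b none = 0 := by
    have h4 : (t1 - t2) * b none = 0 := by linear_combination e2 - e1
    rcases mul_eq_zero.1 h4 with h5 | h5
    · exact absurd (sub_eq_zero.1 h5) ht
    · exact h5
  have hs' : z.1 = x.1 := by
    apply V_inj
    rw [e3, e1, hb]
    ring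
  have k1 : ∑ i, y.2 i ^ 2 = ∑ i, x.2 i ^ 2 := by rw [hS y hy, hS x hx, hs]
  have k2 : ∑ i, z.2 i ^ 2 = ∑ i, x.2 i ^ 2 := by rw [hS z hz, hS x hx, hs']
  have f1 : ∀ i, Q4.phi (x.2 i) = o (some i) + t1 * b (some i) := fun i => congrFun h1 (some i)
  have f2 : ∀ i, Q4.phi (y.2 i) = o (some i) + t2 * b (some i) := fun i => congrFun h2 (some i)
  have f3 : ∀ i, Q4.phi (z.2 i) = o (some i) + t3 * b (some i) := fun i => congrFun h3 (some i)
  have key := colour_line x.2 y.2 z.2 k1 k2 (by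
    intro i j
    rw [map_sub, map_sub, map_sub, map_sub, f1, f1, f2, f2, f3, f3]
    ring)
  rcases key with h4 | h4 | h4
  · exact hxy (Prod.ext hs h4)
  · exact hxz (Prod.ext hs'.symm h4)
  · exact hyz (Prod.ext (hs.symm.trans hs'.symm) h4)

/-- all slots are different -/
theorem slots {S : Finset (Fin 4 × (Fin m → Q4))} {K : Fin 4 → Q4} (hS : Col S K)
    {x y z : Fin 4 × (Fin m → Q4)} (hx : x ∈ S) (hy : y ∈ S) (hz : z ∈ S) (hxy : x ≠ y)
    (hxz : x ≠ z) (hyz : y ≠ z) {o b : Option (Fin m) → ℂ} {t1 t2 t3 : ℂ}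
    (h1 : vec x = o + t1 • b) (h2 : vec y = o + t2 • b) (h3 : vec z = o + t3 • b) :
    x.1 ≠ y.1 ∧ x.1 ≠ z.1 ∧ y.1 ≠ z.1 :=
  ⟨slot hS hx hy hz hxy hxz hyz h1 h2 h3, slot hS hx hz hy hxz hxy hyz.symm h1 h3 h2,
    slot hS hy hz hx hyz hxy.symm hxz.symm h2 h3 h1⟩

end Pool.Agent.H99DD
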