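import Pool.Agent.H99DD.Geo

/-!
# Counting distances, transfer to the Euclidean plane
-/

set_option autoImplicit false

open Finset

namespace Pool.Agent.H99DD

variable {m : ℕ}

/-- the point set of a set of edges -/
noncomputable def SS (E : Finset ((Fin m → Q4) × (Fin m → Q4))) :
    Finset (Fin 4 × (Fin m → Q4)) :=
  (univ ×ˢ E).image fun p => (p.1, fe p.1 p.2)

theorem mem_SS {E : Finset ((Fin m → Q4) × (Fin m → Q4))} (s : Fin 4)
    {e : (Fin m → Q4) × (Fin m → Q4)} (he : e ∈ E) : (s, fe s e) ∈ SS E :=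
  mem_image.2 ⟨(s, e), mem_product.2 ⟨mem_univ _, he⟩, rfl⟩

theorem fe_inj {s t : Fin 4} (hst : s ≠ t) {e e' : (Fin m → Q4) × (Fin m → Q4)}
    (h1 : fe s e = fe s e') (h2 : fe t e = fe t e') : e = e' := by
  have h3 : ∀ j, e.2 j = e'.2 j := by
    intro j
    apply Q4.phi_inj
    have e1 := congrArg Q4.phi (congrFun h1 j)
    have e2 := congrArg Q4.phi (congrFun h2 j)
    simp only [fe, map_add, map_mul] at e1 e2
    have hV : Q4.phi (sl s) - Q4.phi (sl t) ≠ 0 := sub_ne_zero.2 fun h => hst (V_inj h)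
    have e3 : (Q4.phi (sl s) - Q4.phi (sl t)) * (Q4.phi (e.2 j) - Q4.phi (e'.2 j)) = 0 := by
      linear_combination e1 - e2
    rcases mul_eq_zero.1 e3 with h | h
    · exact absurd h hV
    · exact sub_eq_zero.1 h
  refine Prod.ext (funext fun j => ?_) (funext h3)
  have e1 := congrFun h1 j
  simp only [fe, h3 j] at e1
  exact add_right_cancel e1

theorem count (E : Finset ((Fin m → Q4) × (Fin m → Q4))) (pt : Fin 4 × (Fin m → Q4) → ℂ)
    (hpt : ∀ (e : (Fin m → Q4) × (Fin m → Q4)), ∃ r : ℝ, ∀ s t : Fin 4, (s = 0 ∨ s = 1) →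
        (t = 2 ∨ t = 3) → ‖pt (s, fe s e) - pt (t, fe t e)‖ = r ∧
          ‖pt (t, fe t e) - pt (s, fe s e)‖ = r) (s : Fin 4) (v : Fin m → Q4)
    (hx : (s, v) ∈ SS E) :
    (((SS E).erase (s, v)).image fun y => ‖pt (s, v) - pt y‖).card +
      (E.filter fun e => fe s e = v).card ≤ (SS E).card - 1 := by
  classical
  obtain ⟨a, b, has, hbs, hab, hd⟩ : ∃ a b : Fin 4, a ≠ s ∧ b ≠ s ∧ a ≠ b ∧ ∀ e,
      ‖pt (s, fe s e) - pt (a, fe a e)‖ = ‖pt (s, fe s e) - pt (b, fe b e)‖ := by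
    have hs : s = 0 ∨ s = 1 ∨ s = 2 ∨ s = 3 := by fin_cases s <;> simp
    rcases hs with rfl | rfl | rfl | rfl
    · refine ⟨2, 3, by decide, by decide, by decide, fun e => ?_⟩
      obtain ⟨r, hr⟩ := hpt e
      rw [(hr 0 2 (by simp) (by simp)).1, (hr 0 3 (by simp) (by simp)).1]
    · refine ⟨2, 3, by decide, by decide, by decide, fun e => ?_⟩
      obtain ⟨r, hr⟩ := hpt e
      rw [(hr 1 2 (by simp) (by simp)).1, (hr 1 3 (by simp) (by simp)).1]
    · refine ⟨0, 1, by decide, by decide, by decide, fun e => ?_⟩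
      obtain ⟨r, hr⟩ := hpt e
      rw [(hr 0 2 (by simp) (by simp)).2, (hr 1 2 (by simp) (by simp)).2]
    · refine ⟨0, 1, by decide, by decide, by decide, fun e => ?_⟩
      obtain ⟨r, hr⟩ := hpt e
      rw [(hr 0 3 (by simp) (by simp)).2, (hr 1 3 (by simp) (by simp)).2]
  set Z := (E.filter fun e => fe s e = v).image fun e => (b, fe b e) with hZ
  have hZc : Z.card = (E.filter fun e => fe s e = v).card := by
    refine card_image_of_injOn fun e he e' he' h => ?_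
    have h1 : fe s e = v := (mem_filter.1 (mem_coe.1 he)).2
    have h2 : fe s e' = v := (mem_filter.1 (mem_coe.1 he')).2
    exact fe_inj hbs.symm (h1.trans h2.symm) (congrArg Prod.snd h)
  have hZs : Z ⊆ (SS E).erase (s, v) := by
    intro z hz
    obtain ⟨e, he, rfl⟩ := mem_image.1 hz
    refine mem_erase.2 ⟨fun h => hbs (congrArg Prod.fst h), mem_SS b (mem_filter.1 he).1⟩
  have hsub : ((SS E).erase (s, v)).image (fun y => ‖pt (s, v) - pt y‖) ⊆
      ((SS E).erase (s, v) \ Z).image fun y => ‖pt (s, v) - pt y‖ := by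
    intro r hr
    obtain ⟨y, hy, rfl⟩ := mem_image.1 hr
    by_cases hyZ : y ∈ Z
    · obtain ⟨e, he, rfl⟩ := mem_image.1 hyZ
      obtain ⟨he1, he2⟩ := mem_filter.1 he
      refine mem_image.2 ⟨(a, fe a e), mem_sdiff.2 ⟨mem_erase.2
        ⟨fun h => has (congrArg Prod.fst h), mem_SS a he1⟩, fun h => ?_⟩, ?_⟩
      · obtain ⟨e', -, he'⟩ := mem_image.1 h
        exact hab (congrArg Prod.fst he').symm
      · have := hd e
        rw [he2] at this
        exact this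
    · exact mem_image.2 ⟨y, mem_sdiff.2 ⟨hy, hyZ⟩, rfl⟩
  have h1 := (card_le_card hsub).trans card_image_le
  rw [card_sdiff_of_subset hZs] at h1
  have h2 := card_le_card hZs
  rw [card_erase_of_mem hx] at h1 h2
  omega

/-- transfer to the Euclidean plane -/
theorem transfer {Q : Type*} [DecidableEq Q] (S : Finset Q) (pt : Q → ℂ) (d : ℕ)
    (h1 : ∀ x ∈ S, ∀ y ∈ S, x ≠ y → pt x ≠ pt y)
    (h2 : ∀ x ∈ S, ∀ y ∈ S, ∀ z ∈ S, x ≠ y → x ≠ z → y ≠ z →
        ∀ (v : ℂ) (r1 r2 : ℝ), ¬ (pt y = pt x + r1 * v ∧ pt z = pt x + r2 * v))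
    (h3 : ∀ x ∈ S, ∀ y ∈ S, ∀ z ∈ S, ∀ w ∈ S, x ≠ y → x ≠ z → x ≠ w → y ≠ z → y ≠ w → z ≠ w →
        ∀ (o : ℂ) (R : ℝ), ¬ (‖pt x - o‖ = R ∧ ‖pt y - o‖ = R ∧ ‖pt z - o‖ = R ∧
          ‖pt w - o‖ = R))
    (h4 : ∀ x ∈ S, ∀ y ∈ S, ∀ z ∈ S, ∀ w ∈ S, x ≠ y → x ≠ z → x ≠ w → y ≠ z → y ≠ w → z ≠ w →
        ¬ (‖pt z - pt x‖ = ‖pt y - pt x‖ ∧ ‖pt w - pt x‖ = ‖pt y - pt x‖))
    (h5 : ∀ x ∈ S, ((S.erase x).image fun y => ‖pt x - pt y‖).card + d ≤ S.card - 1) :
    ∃ x : Fin S.card → EuclideanSpace ℝ (Fin 2), Function.Injective x ∧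
      (∀ i j k : Fin S.card, i ≠ j → i ≠ k → j ≠ k →
        ¬ Collinear ℝ ({x i, x j, x k} : Set (EuclideanSpace ℝ (Fin 2)))) ∧
      (∀ i j k l : Fin S.card, i ≠ j → i ≠ k → i ≠ l → j ≠ k → j ≠ l → k ≠ l →
        ¬ EuclideanGeometry.Cospherical
          ({x i, x j, x k, x l} : Set (EuclideanSpace ℝ (Fin 2)))) ∧
      (∀ i : Fin S.card, ∀ r : ℝ,
        (univ.filter (fun j : Fin S.card => j ≠ i ∧ dist (x i) (x j) = r)).card ≤ 2) ∧
      ∀ i : Fin S.card, ((univ.erase i).image (fun j : Fin S.card => dist (x i) (x j))).card +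
        d ≤ S.card - 1 := by
  classical
  set J := Complex.orthonormalBasisOneI.repr with hJ
  set e := S.equivFin.symm with he
  have hne : ∀ {i j : Fin S.card}, i ≠ j → (e i : Q) ≠ e j := fun h h' =>
    h (e.injective (Subtype.ext h'))
  have hdist : ∀ i j : Fin S.card, dist (J (pt (e i))) (J (pt (e j))) =
      ‖pt (e i) - pt (e j)‖ := by
    intro i j
    rw [J.dist_map, Complex.dist_eq]
  refine ⟨fun i => J (pt (e i)), ?_, ?_, ?_, ?_, ?_⟩
  · intro i j hij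
    by_contra h
    exact h1 _ (e i).2 _ (e j).2 (hne h) (J.injective hij)
  · intro i j k hij hik hjk hcol
    rw [collinear_iff_of_mem (p₀ := J (pt (e i))) (by simp)] at hcol
    obtain ⟨v, hv⟩ := hcol
    obtain ⟨r1, hr1⟩ := hv (J (pt (e j))) (by simp)
    obtain ⟨r2, hr2⟩ := hv (J (pt (e k))) (by simp)
    refine h2 _ (e i).2 _ (e j).2 _ (e k).2 (hne hij) (hne hik) (hne hjk) (J.symm v) r1 r2
      ⟨?_, ?_⟩
    · apply J.injective
      rw [hr1, map_add, ← Complex.real_smul, map_smul, J.apply_symm_apply, vadd_eq_add, add_comm]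
    · apply J.injective
      rw [hr2, map_add, ← Complex.real_smul, map_smul, J.apply_symm_apply, vadd_eq_add, add_comm]
  · rintro i j k l hij hik hil hjk hjl hkl ⟨o, R, hR⟩
    have key : ∀ i : Fin S.card, dist (J (pt (e i))) o = R → ‖pt (e i) - J.symm o‖ = R := by
      intro i hi
      rw [← hi, ← Complex.dist_eq, ← J.dist_map, J.apply_symm_apply]
    exact h3 _ (e i).2 _ (e j).2 _ (e k).2 _ (e l).2 (hne hij) (hne hik) (hne hil) (hne hjk)
      (hne hjl) (hne hkl) (J.symm o) R ⟨key i (hR _ (by simp)), key j (hR _ (by simp)),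
        key k (hR _ (by simp)), key l (hR _ (by simp))⟩
  · intro i r
    by_contra hcon
    push Not at hcon
    obtain ⟨a, ha, b, hb, c, hc, hab, hac, hbc⟩ := two_lt_card.1 hcon
    obtain ⟨ha1, ha2⟩ := (mem_filter.1 ha).2
    obtain ⟨hb1, hb2⟩ := (mem_filter.1 hb).2
    obtain ⟨hc1, hc2⟩ := (mem_filter.1 hc).2
    rw [hdist, norm_sub_rev] at ha2 hb2 hc2
    exact h4 _ (e i).2 _ (e a).2 _ (e b).2 _ (e c).2 (hne ha1.symm) (hne hb1.symm)
      (hne hc1.symm) (hne hab) (hne hac) (hne hbc) ⟨by rw [ha2, hb2], by rw [ha2, hc2]⟩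
  · intro i
    refine le_trans ?_ (h5 _ (e i).2)
    refine Nat.add_le_add_right (card_le_card ?_) _
    intro r hr
    obtain ⟨j, hj, rfl⟩ := mem_image.1 hr
    rw [hdist]
    exact mem_image.2 ⟨e j, mem_erase.2 ⟨fun h => hne (ne_of_mem_erase hj) h, (e j).2⟩, rfl⟩

end Pool.Agent.H99DD
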