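import Pool.Agent.H99DD.Count

/-!
# The numbers
-/

set_option autoImplicit false

open Finset

namespace Pool.Agent.H99DD

/-- boxes in `ℤ[θ]` -/
def box (I : Finset ℤ) : Finset Q4 :=
  ((I ×ˢ I) ×ˢ (I ×ˢ I)).image fun t => ⟨t.1.1, t.1.2, t.2.1, t.2.2⟩

theorem mem_box {I : Finset ℤ} {x : Q4} :
    x ∈ box I ↔ x.a ∈ I ∧ x.b ∈ I ∧ x.c ∈ I ∧ x.d ∈ I := by
  unfold box
  rw [mem_image]
  constructor
  · rintro ⟨⟨⟨a, b⟩, ⟨c, d⟩⟩, h, rfl⟩
    simp only [mem_product] at h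
    exact ⟨h.1.1, h.1.2, h.2.1, h.2.2⟩
  · rintro ⟨h1, h2, h3, h4⟩
    exact ⟨⟨⟨x.a, x.b⟩, ⟨x.c, x.d⟩⟩, by simp only [mem_product]; exact ⟨⟨h1, h2⟩, h3, h4⟩, rfl⟩

theorem card_box (I : Finset ℤ) : (box I).card = I.card ^ 4 := by
  unfold box
  rw [card_image_of_injective, card_product, card_product]
  · ring
  · rintro ⟨⟨a, b⟩, ⟨c, d⟩⟩ ⟨⟨a', b'⟩, ⟨c', d'⟩⟩ h
    simp only [Q4.mk.injEq] at h
    obtain ⟨rfl, rfl, rfl, rfl⟩ := h
    rfl

theorem fe_box {m k : ℕ} (s : Fin 4) {e : (Fin m → Q4) × (Fin m → Q4)}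
    (h1 : ∀ j, e.1 j ∈ box (Ico 0 (k : ℤ))) (h2 : ∀ j, e.2 j ∈ box (Ico 0 (k : ℤ)))
    (j : Fin m) : fe s e j ∈ box (Ico (-2 * (k : ℤ)) (3 * k)) := by
  obtain ⟨a1, a2, a3, a4⟩ := mem_box.1 (h1 j)
  obtain ⟨b1, b2, b3, b4⟩ := mem_box.1 (h2 j)
  rw [mem_Ico] at a1 a2 a3 a4 b1 b2 b3 b4
  rw [mem_box]
  have hs : s = 0 ∨ s = 1 ∨ s = 2 ∨ s = 3 := by fin_cases s <;> simp
  rcases hs with rfl | rfl | rfl | rfl
  · simp [fe, sl]
    omega
  · simp [fe, sl]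
    omega
  · simp [fe, sl, Q4.th]
    omega
  · simp [fe, sl, Q4.th]
    omega

/-- the coordinates as homomorphisms -/
def aHom : Q4 →+ ℤ := ⟨⟨Q4.a, rfl⟩, fun _ _ => rfl⟩
def bHom : Q4 →+ ℤ := ⟨⟨Q4.b, rfl⟩, fun _ _ => rfl⟩
def cHom : Q4 →+ ℤ := ⟨⟨Q4.c, rfl⟩, fun _ _ => rfl⟩
def dHom : Q4 →+ ℤ := ⟨⟨Q4.d, rfl⟩, fun _ _ => rfl⟩

theorem sum_bound {m : ℕ} (φ : Q4 →+ ℤ) (x : Fin m → Q4) (B : ℤ) (h : ∀ j, |φ (x j)| ≤ B) :
    |φ (∑ j, x j)| ≤ m * B := by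
  rw [map_sum]
  refine (abs_sum_le_sum_abs _ _).trans ((sum_le_sum fun j _ => h j).trans ?_)
  simp

theorem sq_bound {k : ℕ} {x : Q4} (h : x ∈ box (Ico (-2 * (k : ℤ)) (3 * k))) :
    |(x ^ 2).a| ≤ 63 * k ^ 2 ∧ |(x ^ 2).b| ≤ 63 * k ^ 2 ∧ |(x ^ 2).c| ≤ 63 * k ^ 2 ∧
      |(x ^ 2).d| ≤ 63 * k ^ 2 := by
  obtain ⟨a1, a2, a3, a4⟩ := mem_box.1 h
  rw [mem_Ico] at a1 a2 a3 a4
  have hb : ∀ u v : ℤ, (-2 * (k : ℤ) ≤ u ∧ u < 3 * k) → (-2 * (k : ℤ) ≤ v ∧ v < 3 * k) →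
      |u * v| ≤ 9 * k ^ 2 := by
    intro u v hu hv
    have h1 : |u| ≤ 3 * k := abs_le.2 ⟨by linarith, by linarith⟩
    have h2 : |v| ≤ 3 * k := abs_le.2 ⟨by linarith, by linarith⟩
    rw [abs_mul]
    calc |u| * |v| ≤ (3 * k) * (3 * k) := mul_le_mul h1 h2 (abs_nonneg _) (by positivity)
      _ = 9 * k ^ 2 := by ring
  have haa := abs_le.1 (hb _ _ a1 a1)
  have hbb := abs_le.1 (hb _ _ a2 a2)
  have hcc := abs_le.1 (hb _ _ a3 a3)
  have hdd := abs_le.1 (hb _ _ a4 a4)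
  have hab := abs_le.1 (hb _ _ a1 a2)
  have hac := abs_le.1 (hb _ _ a1 a3)
  have had := abs_le.1 (hb _ _ a1 a4)
  have hbc := abs_le.1 (hb _ _ a2 a3)
  have hbd := abs_le.1 (hb _ _ a2 a4)
  have hcd := abs_le.1 (hb _ _ a3 a4)
  have hk : (0 : ℤ) ≤ k ^ 2 := by positivity
  rw [sq]
  simp only [Q4.mul_a, Q4.mul_b, Q4.mul_c, Q4.mul_d]
  refine ⟨abs_le.2 ⟨?_, ?_⟩, abs_le.2 ⟨?_, ?_⟩, abs_le.2 ⟨?_, ?_⟩, abs_le.2 ⟨?_, ?_⟩⟩ <;>
    nlinarith

theorem col_box {m k : ℕ} {x : Fin m → Q4}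
    (h : ∀ j, x j ∈ box (Ico (-2 * (k : ℤ)) (3 * k))) :
    ∑ j, x j ^ 2 ∈ box (Icc (-(m * (63 * k ^ 2) : ℤ)) (m * (63 * k ^ 2))) := by
  rw [mem_box, mem_Icc, mem_Icc, mem_Icc, mem_Icc]
  exact ⟨abs_le.1 (sum_bound aHom (fun j => x j ^ 2) _ fun j => (sq_bound (h j)).1),
    abs_le.1 (sum_bound bHom (fun j => x j ^ 2) _ fun j => (sq_bound (h j)).2.1),
    abs_le.1 (sum_bound cHom (fun j => x j ^ 2) _ fun j => (sq_bound (h j)).2.2.1),
    abs_le.1 (sum_bound dHom (fun j => x j ^ 2) _ fun j => (sq_bound (h j)).2.2.2)⟩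

/-- the edges -/
theorem exists_edges (m e : ℕ) (hm : 115 ≤ m) (he : 4 * m = e + 61) :
    ∃ (E : Finset ((Fin m → Q4) × (Fin m → Q4))) (K : Fin 4 → Q4), E.Nonempty ∧
      (∀ s, ∀ e ∈ E, ∑ j, fe s e j ^ 2 = K s) ∧
      (∀ s, (E.image (fe s)).card ≤ 2 ^ ((m + 3) * (4 * m))) ∧
      ∀ s, ∀ x ∈ E, 2 ^ (m * e) ≤ (E.filter fun x' => fe s x' = fe s x).card := by
  classical
  set k : ℕ := 2 ^ m with hk
  set P : Finset (Fin m → Q4) := Fintype.piFinset fun _ : Fin m => box (Ico 0 (k : ℤ)) with hP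
  set E0 := P ×ˢ P with hE0
  have hPc : P.card = k ^ (4 * m) := by
    rw [hP, Fintype.card_piFinset]
    simp only [card_box, Int.card_Ico, sub_zero, Int.toNat_natCast, prod_const, card_univ,
      Fintype.card_fin]
    rw [← pow_mul]
  have hk0 : 0 < k := by positivity
  have hE0c : E0.card = k ^ (8 * m) := by
    rw [hE0, card_product, hPc, ← pow_add]
    congr 1
    ring
  have hE0n : E0.Nonempty := by
    rw [← card_pos, hE0c]
    positivity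
  have hmem : ∀ s, ∀ x ∈ E0, ∀ j, fe s x j ∈ box (Ico (-2 * (k : ℤ)) (3 * k)) := by
    intro s x hx j
    obtain ⟨h1, h2⟩ := mem_product.1 hx
    exact fe_box s (fun j => Fintype.mem_piFinset.1 h1 j) (fun j => Fintype.mem_piFinset.1 h2 j) j
  set T : Finset Q4 := box (Icc (-(m * (63 * k ^ 2) : ℤ)) (m * (63 * k ^ 2))) with hT
  obtain ⟨κ, hκ⟩ := popular E0 (fun s x => ∑ j, fe s x j ^ 2) T
    (fun s x hx => col_box (hmem s x hx)) hE0n
  set E1 := E0.filter (fun x => ∀ s, ∑ j, fe s x j ^ 2 = κ s) with hE1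
  have hTc : T.card ≤ (127 * m * k ^ 2) ^ 4 := by
    rw [hT, card_box, Int.card_Icc]
    refine Nat.pow_le_pow_left ?_ 4
    have h1 : 1 ≤ m * k ^ 2 := by
      have : 0 < m * k ^ 2 := by positivity
      exact this
    have h2 : ((m : ℤ) * (63 * (k : ℤ) ^ 2) + 1 - -((m : ℤ) * (63 * (k : ℤ) ^ 2))) =
        ((126 * (m * k ^ 2) + 1 : ℕ) : ℤ) := by
      push_cast
      ring
    rw [h2, Int.toNat_natCast]
    nlinarith
  have hN : ∀ s, (E1.image (fe s)).card ≤ 2 ^ ((m + 3) * (4 * m)) := by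
    intro s
    have h1 : E1.image (fe s) ⊆
        Fintype.piFinset fun _ : Fin m => box (Ico (-2 * (k : ℤ)) (3 * k)) := by
      intro v hv
      obtain ⟨x, hx, rfl⟩ := mem_image.1 hv
      exact Fintype.mem_piFinset.2 (hmem s x (mem_filter.1 hx).1)
    refine (card_le_card h1).trans ?_
    rw [Fintype.card_piFinset]
    simp only [card_box, Int.card_Ico, prod_const, card_univ, Fintype.card_fin]
    have h2 : (3 * (k : ℤ) - -2 * k).toNat = 5 * k := by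
      have : (3 * (k : ℤ) - -2 * k) = ((5 * k : ℕ) : ℤ) := by push_cast; ring
      rw [this, Int.toNat_natCast]
    rw [h2, ← pow_mul, pow_mul 2 (m + 3) (4 * m)]
    refine Nat.pow_le_pow_left ?_ _
    rw [hk, pow_add]
    have : 0 < 2 ^ m := by positivity
    nlinarith
  have hbig : 4 * 2 ^ (m * e) * 2 ^ ((m + 3) * (4 * m)) < E1.card := by
    by_contra hcon
    push Not at hcon
    have hm2 : m ≤ 2 ^ m := Nat.lt_two_pow_self.le
    have h3 : T.card ≤ (2 ^ (7 + 3 * m)) ^ 4 := by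
      refine hTc.trans (Nat.pow_le_pow_left ?_ 4)
      calc 127 * m * k ^ 2 ≤ 2 ^ 7 * 2 ^ m * (2 ^ m) ^ 2 := by
            refine Nat.mul_le_mul (Nat.mul_le_mul (by norm_num) hm2) le_rfl
        _ = 2 ^ (7 + 3 * m) := by
            rw [← pow_mul, ← pow_add, ← pow_add]
            congr 1
            ring
    have h4 : E0.card ≤ 2 ^ (16 * (7 + 3 * m) + (2 + m * e + (m + 3) * (4 * m))) := by
      calc E0.card ≤ T.card ^ 4 * E1.card := hκ
        _ ≤ ((2 ^ (7 + 3 * m)) ^ 4) ^ 4 * (4 * 2 ^ (m * e) * 2 ^ ((m + 3) * (4 * m))) :=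
            Nat.mul_le_mul (Nat.pow_le_pow_left h3 4) hcon
        _ = 2 ^ (16 * (7 + 3 * m) + (2 + m * e + (m + 3) * (4 * m))) := by
            rw [← pow_mul, ← pow_mul, pow_add, pow_add, pow_add]
            congr 2
            ring
    rw [hE0c, hk, ← pow_mul] at h4
    have h5 := (Nat.pow_le_pow_iff_right (by norm_num : 1 < 2)).1 h4
    have h6 : m * (4 * m) = m * (e + 61) := by rw [he]
    nlinarith
  obtain ⟨E', hE'1, hE'2, hE'3⟩ := prune E1 fe (2 ^ ((m + 3) * (4 * m))) (2 ^ (m * e)) hN hbig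
  refine ⟨E', κ, hE'2, fun s x hx => (mem_filter.1 (hE'1 hx)).2 s, fun s => ?_, hE'3⟩
  exact (card_le_card (image_subset_image hE'1)).trans (hN s)

/-- the estimate -/
theorem estimate {m e n : ℕ} (hm : 115 ≤ m) (he : 4 * m = e + 61)
    (h1 : n ≤ 4 * 2 ^ ((m + 3) * (4 * m))) (h2 : 2 ^ (m * e) ≤ n) :
    (n : ℝ) * Real.exp (-(74 * √(Real.log n))) ≤ 2 ^ (m * e) := by
  have hlog2 : 0 < Real.log 2 := Real.log_pos (by norm_num)
  have hlog1 : Real.log 2 ≤ 1 := by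
    have := Real.log_two_lt_d9
    linarith
  have hn : (0 : ℝ) < n := by
    have : 0 < n := lt_of_lt_of_le (by positivity) h2
    exact_mod_cast this
  have h3 : (m * e : ℕ) * Real.log 2 ≤ Real.log n := by
    have h4 : ((2 : ℝ) ^ (m * e)) ≤ n := by exact_mod_cast h2
    have h5 := Real.log_le_log (by positivity) h4
    rwa [Real.log_pow] at h5
  have h4 : m * Real.log 2 ≤ √(Real.log n) := by
    refine Real.le_sqrt_of_sq_le ?_
    refine le_trans ?_ h3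
    have he' : m ≤ e := by omega
    have he'' : (m : ℝ) ≤ e := by exact_mod_cast he'
    push_cast
    have h5 : (m : ℝ) * (m : ℝ) ≤ m * e := mul_le_mul_of_nonneg_left he'' (by positivity)
    have h6 : Real.log 2 * Real.log 2 ≤ Real.log 2 := by nlinarith
    calc (m * Real.log 2) ^ 2 = (m * m : ℝ) * (Real.log 2 * Real.log 2) := by ring
      _ ≤ (m * e) * Real.log 2 := mul_le_mul h5 h6 (by positivity) (by positivity)
  have h5 : Real.exp (-(74 * √(Real.log n))) ≤ ((2 : ℝ) ^ (74 * m))⁻¹ := by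
    have h6 : ((2 : ℝ) ^ (74 * m))⁻¹ = Real.exp (-(74 * (m * Real.log 2))) := by
      rw [Real.exp_neg]
      congr 1
      rw [← Real.rpow_natCast, Real.rpow_def_of_pos (by norm_num)]
      congr 1
      push_cast
      ring
    rw [h6]
    exact Real.exp_le_exp.2 (by linarith)
  have h6 : (n : ℝ) ≤ 2 ^ (m * e) * 2 ^ (74 * m) := by
    have h7 : n ≤ 2 ^ (m * e) * 2 ^ (74 * m) := by
      refine h1.trans ?_
      have h8 : 4 * 2 ^ ((m + 3) * (4 * m)) = 2 ^ (2 + (m + 3) * (4 * m)) := by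
        rw [pow_add]
        norm_num
      rw [h8, ← pow_add]
      refine Nat.pow_le_pow_right (by norm_num) ?_
      have h6 : m * (4 * m) = m * (e + 61) := by rw [he]
      nlinarith
    exact_mod_cast h7
  calc (n : ℝ) * Real.exp (-(74 * √(Real.log n)))
      ≤ (2 ^ (m * e) * 2 ^ (74 * m)) * ((2 : ℝ) ^ (74 * m))⁻¹ :=
        mul_le_mul h6 h5 (Real.exp_pos _).le (by positivity)
    _ = 2 ^ (m * e) := by
        rw [mul_assoc, mul_inv_cancel₀ (by positivity), mul_one]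

/-- **Main theorem.** -/
theorem main (N0 : ℕ) : ∃ n : ℕ, N0 ≤ n ∧ ∃ x : Fin n → EuclideanSpace ℝ (Fin 2),
    Function.Injective x ∧
    (∀ i j k : Fin n, i ≠ j → i ≠ k → j ≠ k →
      ¬ Collinear ℝ ({x i, x j, x k} : Set (EuclideanSpace ℝ (Fin 2)))) ∧
    (∀ i j k l : Fin n, i ≠ j → i ≠ k → i ≠ l → j ≠ k → j ≠ l → k ≠ l →
      ¬ EuclideanGeometry.Cospherical
        ({x i, x j, x k, x l} : Set (EuclideanSpace ℝ (Fin 2)))) ∧
    (∀ i : Fin n, ∀ r : ℝ,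
      (univ.filter (fun j : Fin n => j ≠ i ∧ dist (x i) (x j) = r)).card ≤ 2) ∧
    ∀ i : Fin n, (((univ.erase i).image (fun j : Fin n => dist (x i) (x j))).card : ℝ) ≤
      n - n * Real.exp (-(74 * √(Real.log n))) := by
  classical
  set m : ℕ := 115 + N0 with hm
  set e : ℕ := 4 * m - 61 with he
  have hm1 : 115 ≤ m := by omega
  have he1 : 4 * m = e + 61 := by omega
  obtain ⟨E, K, hEn, hcol, hN, hd⟩ := exists_edges m e hm1 he1
  have hCol : Col (SS E) K := by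
    intro q hq
    obtain ⟨⟨s, x⟩, hx, rfl⟩ := mem_image.1 hq
    exact hcol s x (mem_product.1 hx).2
  obtain ⟨pt, g1, g2, g3, g4, g5⟩ := geo (SS E) K hCol
  have hcount : ∀ x ∈ SS E, (((SS E).erase x).image fun y => ‖pt x - pt y‖).card +
      2 ^ (m * e) ≤ (SS E).card - 1 := by
    intro q hq
    obtain ⟨⟨s, x⟩, hx, rfl⟩ := mem_image.1 hq
    have hxE := (mem_product.1 hx).2
    exact (Nat.add_le_add_left (hd s x hxE) _).trans (count E pt g5 s (fe s x) hq)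
  have hupper : (SS E).card ≤ 4 * 2 ^ ((m + 3) * (4 * m)) := by
    have h1 : SS E ⊆ (univ : Finset (Fin 4)).biUnion
        fun s => (E.image (fe s)).image fun v => (s, v) := by
      intro q hq
      obtain ⟨⟨s, x⟩, hx, rfl⟩ := mem_image.1 hq
      exact mem_biUnion.2 ⟨s, mem_univ _, mem_image_of_mem _
        (mem_image_of_mem _ (mem_product.1 hx).2)⟩
    refine (card_le_card h1).trans (card_biUnion_le.trans ?_)
    refine (sum_le_sum fun s _ => card_image_le.trans (hN s)).trans ?_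
    simp
  obtain ⟨x0, hx0⟩ := hEn
  have hlower : 2 ^ (m * e) + 1 ≤ (SS E).card := by
    have h1 := hcount _ (mem_SS 0 hx0)
    have h2 : 0 < (SS E).card := card_pos.2 ⟨_, mem_SS 0 hx0⟩
    omega
  obtain ⟨x, k1, k2, k3, k4, k5⟩ := transfer (SS E) pt (2 ^ (m * e)) g1 g2 g3 g4 hcount
  refine ⟨(SS E).card, ?_, x, k1, k2, k3, k4, fun i => ?_⟩
  · have h1 : m ≤ m * e := Nat.le_mul_of_pos_right m (by omega)
    have h2 : m < 2 ^ m := Nat.lt_two_pow_self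
    have h3 : 2 ^ m ≤ 2 ^ (m * e) := Nat.pow_le_pow_right (by norm_num) h1
    omega
  · have h1 := k5 i
    have h2 := estimate hm1 he1 hupper (by omega)
    have h3 : ((univ.erase i).image (fun j => dist (x i) (x j))).card + 2 ^ (m * e) ≤
        (SS E).card := h1.trans (Nat.sub_le _ _)
    have h4 : ((((univ.erase i).image (fun j => dist (x i) (x j))).card : ℝ)) + 2 ^ (m * e) ≤
        ((SS E).card : ℝ) := by exact_mod_cast h3
    linarith

end Pool.Agent.H99DD
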