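import Mathlib

/-!
# Generic complex linear projections

`LL u c` is the bilinear form.  For a finite set `A` of vectors there is `c` such that the numbers
`LL x c`, `x` in `A`, have only those collinearities, equal distances and concyclic quadruples which
come from complex lines.
-/

set_option autoImplicit false

open MvPolynomial Finset

namespace Pool.Agent.H99DD

variable {ι : Type*}

theorem eval_aeval' {κ : Type*} (x : κ → ℂ) (h : ι → MvPolynomial κ ℂ) (f : MvPolynomial ι ℂ) :
    eval x (aeval h f) = eval (fun i => eval x (h i)) f := by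
  induction f using MvPolynomial.induction_on with
  | C a => simp [algebraMap_eq]
  | add p q hp hq => rw [map_add, map_add, map_add, hp, hq]
  | mul_X p i hp => rw [map_mul, map_mul, map_mul, hp, aeval_X, eval_X]

/-- A nonzero polynomial in the variables `c, c'` does not vanish at all points `(c, conj c)`. -/
theorem exists_conj_eval_ne {f : MvPolynomial (ι ⊕ ι) ℂ} (hf : f ≠ 0) :
    ∃ c : ι → ℂ, eval (Sum.elim c (fun i => (starRingEnd ℂ) (c i))) f ≠ 0 := by
  by_contra hcon
  push Not at hcon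
  apply hf
  set h : ι ⊕ ι → MvPolynomial (ι ⊕ ι) ℂ :=
    Sum.elim (fun i => X (Sum.inl i) + C Complex.I * X (Sum.inr i))
      (fun i => X (Sum.inl i) - C Complex.I * X (Sum.inr i)) with hh
  have hg0 : aeval h f = 0 := by
    refine funext_set (fun _ => Set.range (fun r : ℝ => (r : ℂ)))
      (fun _ => Set.infinite_range_of_injective Complex.ofReal_injective) ?_
    intro x hx
    have hx' : ∀ j, ∃ r : ℝ, (r : ℂ) = x j := fun j => hx j (Set.mem_univ _)
    choose r hr using hx'
    rw [map_zero, eval_aeval']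
    have := hcon (fun i => x (Sum.inl i) + Complex.I * x (Sum.inr i))
    rw [← this]
    congr 1
    apply congrArg
    funext j
    rcases j with j | j
    · simp [hh]
    · simp only [hh, Sum.elim_inr, map_sub, map_mul, eval_X, eval_C, map_add, Complex.conj_I]
      rw [← hr (Sum.inl j), ← hr (Sum.inr j), Complex.conj_ofReal, Complex.conj_ofReal]
      ring
  refine MvPolynomial.funext fun z => ?_
  have h1 : eval (Sum.elim (fun i => (z (Sum.inl i) + z (Sum.inr i)) / 2)
      (fun i => (z (Sum.inl i) - z (Sum.inr i)) / (2 * Complex.I))) (aeval h f) = 0 := by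
    rw [hg0, map_zero]
  rw [eval_aeval'] at h1
  rw [map_zero, ← h1]
  congr 1
  apply congrArg
  funext j
  have hI : Complex.I ≠ 0 := Complex.I_ne_zero
  rcases j with j | j
  · simp only [hh, Sum.elim_inl, map_add, map_mul, eval_X, eval_C, Sum.elim_inr]
    field_simp
    ring
  · simp only [hh, Sum.elim_inl, map_sub, map_mul, eval_X, eval_C, Sum.elim_inr]
    field_simp
    ring

/-- finitely many nonzero polynomials -/
theorem exists_generic (F : Finset (MvPolynomial (ι ⊕ ι) ℂ)) :
    ∃ c : ι → ℂ, ∀ f ∈ F, eval (Sum.elim c (fun i => (starRingEnd ℂ) (c i))) f = 0 → f = 0 := by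
  classical
  have h1 : (∏ f ∈ F.filter (fun f => f ≠ 0), f) ≠ 0 :=
    Finset.prod_ne_zero_iff.2 fun f hf => (Finset.mem_filter.1 hf).2
  obtain ⟨c, hc⟩ := exists_conj_eval_ne h1
  refine ⟨c, fun f hf h0 => ?_⟩
  by_contra hne
  apply hc
  rw [map_prod]
  exact Finset.prod_eq_zero (Finset.mem_filter.2 ⟨hf, hne⟩) h0

section lin

variable [Fintype ι]

/-- the bilinear form -/
noncomputable def LL (u c : ι → ℂ) : ℂ := ∑ i, u i * c i

theorem LL_add (u v c : ι → ℂ) : LL (u + v) c = LL u c + LL v c := by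
  simp [LL, add_mul, Finset.sum_add_distrib]

theorem LL_sub (u v c : ι → ℂ) : LL (u - v) c = LL u c - LL v c := by
  simp [LL, sub_mul, Finset.sum_sub_distrib]

theorem LL_smul (r : ℂ) (u c : ι → ℂ) : LL (r • u) c = r * LL u c := by
  simp [LL, Finset.mul_sum, mul_assoc]

theorem LL_add_right (u c d : ι → ℂ) : LL u (c + d) = LL u c + LL u d := by
  simp [LL, mul_add, Finset.sum_add_distrib]

theorem exists_LL_ne {u : ι → ℂ} (hu : u ≠ 0) : ∃ c, LL u c ≠ 0 := by
  classical
  obtain ⟨i, hi⟩ := Function.ne_iff.1 hu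
  refine ⟨Pi.single i 1, ?_⟩
  simpa [LL, Pi.single_apply] using hi

theorem exists_LL_ne_ne {u v : ι → ℂ} (hu : u ≠ 0) (hv : v ≠ 0) :
    ∃ c, LL u c ≠ 0 ∧ LL v c ≠ 0 := by
  obtain ⟨c, hc⟩ := exists_LL_ne hu
  obtain ⟨d, hd⟩ := exists_LL_ne hv
  by_cases h1 : LL v c = 0
  · by_cases h2 : LL u d = 0
    · exact ⟨c + d, by rw [LL_add_right, h2, add_zero]; exact hc,
        by rw [LL_add_right, h1, zero_add]; exact hd⟩
    · exact ⟨d, h2, hd⟩
  · exact ⟨c, hc, h1⟩

/-- separation of two vectors which are not proportional -/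
theorem exists_LL_sep {u w : ι → ℂ} (h : ¬ ∃ l : ℂ, u = l • w) : ∃ c, LL u c ≠ 0 ∧ LL w c = 0 := by
  classical
  by_cases hw : w = 0
  · have hu : u ≠ 0 := fun hu => h ⟨0, by rw [hu, zero_smul]⟩
    obtain ⟨c, hc⟩ := exists_LL_ne hu
    exact ⟨c, hc, by rw [hw]; simp [LL]⟩
  · obtain ⟨i, hi⟩ := Function.ne_iff.1 hw
    have hi' : w i ≠ 0 := hi
    have : ∃ j, u j ≠ (u i / w i) * w j := by
      by_contra hcon
      push Not at hcon
      exact h ⟨u i / w i, funext hcon⟩
    obtain ⟨j, hj⟩ := this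
    have key : ∀ v : ι → ℂ, LL v (w i • Pi.single j (1 : ℂ) - w j • Pi.single i (1 : ℂ)) =
        v j * w i - v i * w j := by
      intro v
      simp [LL, Pi.single_apply, mul_sub, Finset.sum_sub_distrib]
    refine ⟨w i • Pi.single j (1 : ℂ) - w j • Pi.single i (1 : ℂ), ?_, ?_⟩
    · rw [key]
      intro h0
      apply hj
      field_simp
      linear_combination h0
    · rw [key]
      ring

/-- the polynomial of `LL u` -/
noncomputable def lin (u : ι → ℂ) : MvPolynomial (ι ⊕ ι) ℂ := ∑ i, C (u i) * X (Sum.inl i)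

/-- the polynomial of the conjugate of `LL u` -/
noncomputable def linb (u : ι → ℂ) : MvPolynomial (ι ⊕ ι) ℂ :=
  ∑ i, C ((starRingEnd ℂ) (u i)) * X (Sum.inr i)

theorem eval_lin (u c d : ι → ℂ) : eval (Sum.elim c d) (lin u) = LL u c := by
  simp [lin, LL]

theorem eval_linb (u c d : ι → ℂ) :
    eval (Sum.elim c (fun i => (starRingEnd ℂ) (d i))) (linb u) = (starRingEnd ℂ) (LL u d) := by
  simp [linb, LL, map_sum]

theorem of_lin {u : ι → ℂ} (h : lin u = 0) : u = 0 := by
  by_contra hu
  obtain ⟨c, hc⟩ := exists_LL_ne hu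
  apply hc
  rw [← eval_lin u c c, h, map_zero]

/-- real ratios -/
theorem of_real {u w : ι → ℂ} (hu : u ≠ 0) (h : lin u * linb w - lin w * linb u = 0) :
    ∃ r : ℝ, w = (r : ℂ) • u := by
  have key : ∀ c d, LL u c * (starRingEnd ℂ) (LL w d) = LL w c * (starRingEnd ℂ) (LL u d) := by
    intro c d
    have := congrArg (eval (Sum.elim c (fun i => (starRingEnd ℂ) (d i)))) h
    simp only [map_sub, map_mul, eval_lin, eval_linb, map_zero] at this
    exact sub_eq_zero.1 this
  by_cases hl : ∃ l : ℂ, w = l • u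
  · obtain ⟨l, rfl⟩ := hl
    obtain ⟨c, hc⟩ := exists_LL_ne hu
    have := key c c
    rw [LL_smul, map_mul] at this
    have hc' : (starRingEnd ℂ) (LL u c) ≠ 0 := by simpa using hc
    have h2 : (starRingEnd ℂ) l = l := by
      have h3 : ((starRingEnd ℂ) l - l) * (LL u c * (starRingEnd ℂ) (LL u c)) = 0 := by
        linear_combination this
      rcases mul_eq_zero.1 h3 with h4 | h4
      · exact sub_eq_zero.1 h4
      · exact absurd h4 (mul_ne_zero hc hc')
    obtain ⟨r, hr⟩ := Complex.conj_eq_iff_real.1 h2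
    exact ⟨r, by rw [hr]⟩
  · obtain ⟨c, hc1, hc2⟩ := exists_LL_sep hl
    obtain ⟨d, hd⟩ := exists_LL_ne hu
    have := key c d
    rw [hc2, zero_mul] at this
    have hd' : (starRingEnd ℂ) (LL u d) ≠ 0 := by simpa using hd
    exact absurd this.symm (mul_ne_zero hc1 hd')

/-- equal lengths -/
theorem of_norm {u w : ι → ℂ} (h : lin u * linb u - lin w * linb w = 0) :
    ∃ l : ℂ, ‖l‖ = 1 ∧ w = l • u := by
  have key : ∀ c d, LL u c * (starRingEnd ℂ) (LL u d) = LL w c * (starRingEnd ℂ) (LL w d) := by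
    intro c d
    have := congrArg (eval (Sum.elim c (fun i => (starRingEnd ℂ) (d i)))) h
    simp only [map_sub, map_mul, eval_lin, eval_linb, map_zero] at this
    exact sub_eq_zero.1 this
  by_cases hl : ∃ l : ℂ, w = l • u
  · obtain ⟨l, rfl⟩ := hl
    by_cases hu : u = 0
    · exact ⟨1, by simp, by simp [hu]⟩
    obtain ⟨c, hc⟩ := exists_LL_ne hu
    have := key c c
    rw [LL_smul, map_mul, Complex.mul_conj] at this
    have h2 : l * (LL u c * ((starRingEnd ℂ) l * (starRingEnd ℂ) (LL u c))) =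
        (l * (starRingEnd ℂ) l) * (LL u c * (starRingEnd ℂ) (LL u c)) := by ring
    rw [mul_assoc, h2, Complex.mul_conj, Complex.mul_conj] at this
    have h3 : (Complex.normSq (LL u c) : ℂ) ≠ 0 := by
      rw [Ne, Complex.ofReal_eq_zero, Complex.normSq_eq_zero]
      exact hc
    have h4 : (Complex.normSq l : ℂ) = 1 := by
      have := mul_right_cancel₀ h3 (((one_mul _).trans this) : (1 : ℂ) * _ = _)
      exact this.symm
    have h5 : Complex.normSq l = 1 := by exact_mod_cast h4
    refine ⟨l, ?_, rfl⟩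
    rw [Complex.normSq_eq_norm_sq] at h5
    nlinarith [norm_nonneg l]
  · obtain ⟨c, hc1, hc2⟩ := exists_LL_sep hl
    have := key c c
    rw [hc2, zero_mul] at this
    have hc' : (starRingEnd ℂ) (LL w c) ≠ 0 := by simpa using hc1
    exact absurd this.symm (mul_ne_zero hc1 hc')

/-- products of two linear forms -/
theorem of_prod {a b e g : ι → ℂ} {r : ℂ} (ha : a ≠ 0) (hb : b ≠ 0) (he : e ≠ 0) (hg : g ≠ 0)
    (h : ∀ c, LL a c * LL b c = r * (LL e c * LL g c)) :
    (∃ l m : ℂ, e = l • a ∧ g = m • b) ∨ (∃ l m : ℂ, g = l • a ∧ e = m • b) := by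
  have hr : r ≠ 0 := by
    rintro rfl
    obtain ⟨c, h1, h2⟩ := exists_LL_ne_ne ha hb
    have := h c
    rw [zero_mul] at this
    exact mul_ne_zero h1 h2 this
  have aux : ∀ e g : ι → ℂ, e ≠ 0 → g ≠ 0 →
      (∀ c, LL a c * LL b c = r * (LL e c * LL g c)) → (∃ l : ℂ, e = l • a) →
      ∃ l m : ℂ, e = l • a ∧ g = m • b := by
    intro e g he hg h ⟨l, hl⟩
    have hl0 : l ≠ 0 := by
      rintro rfl
      exact he (by rw [hl, zero_smul])
    have hz : b - (r * l) • g = 0 := by
      by_contra hne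
      obtain ⟨c, h1, h2⟩ := exists_LL_ne_ne ha hne
      have := h c
      rw [hl, LL_smul] at this
      rw [LL_sub, LL_smul] at h2
      apply mul_ne_zero h1 h2
      linear_combination this
    refine ⟨l, (r * l)⁻¹, hl, ?_⟩
    rw [sub_eq_zero] at hz
    rw [hz, smul_smul, inv_mul_cancel₀ (mul_ne_zero hr hl0), one_smul]
  by_cases h1 : ∃ l : ℂ, e = l • a
  · exact Or.inl (aux e g he hg h h1)
  by_cases h2 : ∃ l : ℂ, g = l • a
  · exact Or.inr (aux g e hg he (fun c => by rw [h c]; ring) h2)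
  exfalso
  obtain ⟨c, hc1, hc2⟩ := exists_LL_sep h1
  obtain ⟨d, hd1, hd2⟩ := exists_LL_sep h2
  have e1 : LL g c = 0 := by
    have := h c
    rw [hc2, zero_mul] at this
    rcases mul_eq_zero.1 this.symm with h3 | h3
    · exact absurd h3 hr
    · exact (mul_eq_zero.1 h3).resolve_left hc1
  have e2 : LL e d = 0 := by
    have := h d
    rw [hd2, zero_mul] at this
    rcases mul_eq_zero.1 this.symm with h3 | h3
    · exact absurd h3 hr
    · exact (mul_eq_zero.1 h3).resolve_right hd1
  have := h (c + d)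
  rw [LL_add_right, LL_add_right, LL_add_right, LL_add_right, hc2, hd2, e1, e2] at this
  simp only [add_zero, zero_add, zero_mul] at this
  exact mul_ne_zero hr (mul_ne_zero hc1 hd1) this.symm

/-- four points on a complex line -/
def CL4 (x y z w : ι → ℂ) : Prop :=
  ∃ (o b : ι → ℂ) (t1 t2 t3 t4 : ℂ), x = o + t1 • b ∧ y = o + t2 • b ∧ z = o + t3 • b ∧
    w = o + t4 • b

/-- concyclic quadruples -/
theorem of_cross {x y z w : ι → ℂ} (hxy : x ≠ y) (hxz : x ≠ z) (hxw : x ≠ w) (hyz : y ≠ z)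
    (hyw : y ≠ w) (hzw : z ≠ w)
    (h : (lin (x - z) * lin (y - w)) * (linb (x - w) * linb (y - z)) -
      (lin (x - w) * lin (y - z)) * (linb (x - z) * linb (y - w)) = 0) : CL4 x y z w := by
  have key : ∀ c d, (LL (x - z) c * LL (y - w) c) *
      (starRingEnd ℂ) (LL (x - w) d * LL (y - z) d) =
      (LL (x - w) c * LL (y - z) c) * (starRingEnd ℂ) (LL (x - z) d * LL (y - w) d) := by
    intro c d
    have := congrArg (eval (Sum.elim c (fun i => (starRingEnd ℂ) (d i)))) h
    simp only [map_sub, map_mul, eval_lin, eval_linb, map_zero] at this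
    rw [map_mul, map_mul]
    exact sub_eq_zero.1 this
  obtain ⟨d, hd1, hd2⟩ := exists_LL_ne_ne (sub_ne_zero.2 hxw) (sub_ne_zero.2 hyz)
  have hq : (starRingEnd ℂ) (LL (x - w) d * LL (y - z) d) ≠ 0 := by
    simpa using ⟨hd1, hd2⟩
  have hprod : ∀ c, LL (x - z) c * LL (y - w) c =
      ((starRingEnd ℂ) (LL (x - z) d * LL (y - w) d) /
        (starRingEnd ℂ) (LL (x - w) d * LL (y - z) d)) * (LL (x - w) c * LL (y - z) c) := by
    intro c
    field_simp
    linear_combination key c d
  rcases of_prod (sub_ne_zero.2 hxz) (sub_ne_zero.2 hyw) (sub_ne_zero.2 hxw) (sub_ne_zero.2 hyz)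
    hprod with ⟨l, m, h1, h2⟩ | ⟨l, m, h1, h2⟩
  · -- `x - w = l (x - z)`, `y - z = m (y - w)`
    have hl : 1 - l ≠ 0 := by
      intro h0
      have hl1 : l = 1 := by linear_combination -h0
      rw [hl1, one_smul] at h1
      exact hzw (sub_right_injective h1).symm
    have hm : 1 - m ≠ 0 := by
      intro h0
      have hm1 : m = 1 := by linear_combination -h0
      rw [hm1, one_smul] at h2
      exact hzw (sub_right_injective h2)
    refine ⟨w, z - w, -l / (1 - l), 1 / (1 - m), 1, 0, ?_, ?_, ?_, ?_⟩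
    · funext i
      have := congrFun h1 i
      simp only [Pi.sub_apply, Pi.smul_apply, smul_eq_mul, Pi.add_apply] at this ⊢
      field_simp
      linear_combination this
    · funext i
      have := congrFun h2 i
      simp only [Pi.sub_apply, Pi.smul_apply, smul_eq_mul, Pi.add_apply] at this ⊢
      field_simp
      linear_combination this
    · rw [one_smul]
      abel
    · rw [zero_smul, add_zero]
  · -- `y - z = l (x - z)`, `x - w = m (y - w)`
    have hm : m - 1 ≠ 0 := by
      intro h0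
      have hm1 : m = 1 := by linear_combination h0
      rw [hm1, one_smul] at h2
      exact hxy (sub_left_injective h2)
    refine ⟨z, x - z, 1, l, 0, (m * l - 1) / (m - 1), ?_, ?_, ?_, ?_⟩
    · rw [one_smul]
      abel
    · rw [← h1]
      abel
    · rw [zero_smul, add_zero]
    · funext i
      have e1 := congrFun h1 i
      have e2 := congrFun h2 i
      simp only [Pi.sub_apply, Pi.smul_apply, smul_eq_mul, Pi.add_apply] at e1 e2 ⊢
      field_simp
      linear_combination e2 + m * e1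

/-- **Generic projection.** -/
theorem exists_proj (A : Finset (ι → ℂ)) : ∃ c : ι → ℂ,
    (∀ x ∈ A, ∀ y ∈ A, x ≠ y → LL (x - y) c ≠ 0) ∧
    (∀ x ∈ A, ∀ y ∈ A, ∀ z ∈ A, y ≠ x →
      (LL (y - x) c * (starRingEnd ℂ) (LL (z - x) c)).im = 0 → ∃ r : ℝ, z - x = (r : ℂ) • (y - x)) ∧
    (∀ x ∈ A, ∀ y ∈ A, ∀ z ∈ A, ‖LL (y - x) c‖ = ‖LL (z - x) c‖ →
      ∃ l : ℂ, ‖l‖ = 1 ∧ z - x = l • (y - x)) ∧
    (∀ x ∈ A, ∀ y ∈ A, ∀ z ∈ A, ∀ w ∈ A, x ≠ y → x ≠ z → x ≠ w → y ≠ z → y ≠ w → z ≠ w →
      ((LL (x - z) c * LL (y - w) c) * (starRingEnd ℂ) (LL (x - w) c * LL (y - z) c)).im = 0 →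
      CL4 x y z w) := by
  classical
  set F : Finset (MvPolynomial (ι ⊕ ι) ℂ) :=
    ((A ×ˢ A).image fun p => lin (p.1 - p.2)) ∪
    ((A ×ˢ A ×ˢ A).image fun p => lin (p.2.1 - p.1) * linb (p.2.2 - p.1) -
      lin (p.2.2 - p.1) * linb (p.2.1 - p.1)) ∪
    ((A ×ˢ A ×ˢ A).image fun p => lin (p.2.1 - p.1) * linb (p.2.1 - p.1) -
      lin (p.2.2 - p.1) * linb (p.2.2 - p.1)) ∪
    ((A ×ˢ A ×ˢ A ×ˢ A).image fun p =>
      (lin (p.1 - p.2.2.1) * lin (p.2.1 - p.2.2.2)) *
        (linb (p.1 - p.2.2.2) * linb (p.2.1 - p.2.2.1)) -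
      (lin (p.1 - p.2.2.2) * lin (p.2.1 - p.2.2.1)) *
        (linb (p.1 - p.2.2.1) * linb (p.2.1 - p.2.2.2))) with hF
  obtain ⟨c, hc⟩ := exists_generic F
  refine ⟨c, ?_, ?_, ?_, ?_⟩
  · intro x hx y hy hxy h0
    apply hxy
    have hmem : lin (x - y) ∈ F := by
      rw [hF]
      refine Finset.mem_union_left _ (Finset.mem_union_left _ (Finset.mem_union_left _ ?_))
      exact Finset.mem_image.2 ⟨(x, y), by simp [hx, hy], rfl⟩
    have := hc _ hmem (by rw [eval_lin, h0])
    exact sub_eq_zero.1 (of_lin this)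
  · intro x hx y hy z hz hyx h0
    have hmem : lin (y - x) * linb (z - x) - lin (z - x) * linb (y - x) ∈ F := by
      rw [hF]
      refine Finset.mem_union_left _ (Finset.mem_union_left _ (Finset.mem_union_right _ ?_))
      exact Finset.mem_image.2 ⟨(x, y, z), by simp [hx, hy, hz], rfl⟩
    refine of_real (sub_ne_zero.2 hyx) (hc _ hmem ?_)
    rw [map_sub, map_mul, map_mul, eval_lin, eval_linb, eval_lin, eval_linb]
    have h1 : (starRingEnd ℂ) (LL (y - x) c * (starRingEnd ℂ) (LL (z - x) c)) =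
        LL (y - x) c * (starRingEnd ℂ) (LL (z - x) c) := Complex.conj_eq_iff_im.2 h0
    rw [map_mul, Complex.conj_conj] at h1
    linear_combination -h1
  · intro x hx y hy z hz h0
    have hmem : lin (y - x) * linb (y - x) - lin (z - x) * linb (z - x) ∈ F := by
      rw [hF]
      refine Finset.mem_union_left _ (Finset.mem_union_right _ ?_)
      exact Finset.mem_image.2 ⟨(x, y, z), by simp [hx, hy, hz], rfl⟩
    refine of_norm (hc _ hmem ?_)
    rw [map_sub, map_mul, map_mul, eval_lin, eval_linb, eval_lin, eval_linb, Complex.mul_conj,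
      Complex.mul_conj, Complex.normSq_eq_norm_sq, Complex.normSq_eq_norm_sq, h0, sub_self]
  · intro x hx y hy z hz w hw hxy hxz hxw hyz hyw hzw h0
    have hmem : (lin (x - z) * lin (y - w)) * (linb (x - w) * linb (y - z)) -
      (lin (x - w) * lin (y - z)) * (linb (x - z) * linb (y - w)) ∈ F := by
      rw [hF]
      refine Finset.mem_union_right _ ?_
      exact Finset.mem_image.2 ⟨(x, y, z, w), by simp [hx, hy, hz, hw], rfl⟩
    refine of_cross hxy hxz hxw hyz hyw hzw (hc _ hmem ?_)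
    simp only [map_sub, map_mul, eval_lin, eval_linb]
    have h1 := Complex.conj_eq_iff_im.2 h0
    simp only [map_mul, Complex.conj_conj] at h1
    linear_combination -h1

end lin

end Pool.Agent.H99DD
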