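import Pool.Agent.H99DD.Build

/-!
# The projected points
-/

set_option autoImplicit false

open Finset

namespace Pool.Agent.H99DD

variable {m : ℕ}

/-- the point of slot `s` on the edge `(p, u)` -/
def fe (s : Fin 4) (e : (Fin m → Q4) × (Fin m → Q4)) : Fin m → Q4 :=
  fun j => e.1 j + sl s * e.2 j

/-- a circle through four points: the cross ratio is real -/
theorem cross_real {a b c d o : ℂ} {R : ℝ} (hR : R ≠ 0) (ha : ‖a - o‖ = R) (hb : ‖b - o‖ = R)
    (hc : ‖c - o‖ = R) (hd : ‖d - o‖ = R) :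
    (((a - c) * (b - d)) * (starRingEnd ℂ) ((a - d) * (b - c))).im = 0 := by
  set A := a - o with hA
  set B := b - o with hB
  set C := c - o with hC
  set D := d - o with hD
  have e1 : a - c = A - C := by rw [hA, hC]; ring
  have e2 : b - d = B - D := by rw [hB, hD]; ring
  have e3 : a - d = A - D := by rw [hA, hD]; ring
  have e4 : b - c = B - C := by rw [hB, hC]; ring
  rw [e1, e2, e3, e4]
  have hsq : ∀ z : ℂ, ‖z‖ = R → z * (starRingEnd ℂ) z = (R : ℂ) ^ 2 := by
    intro z hz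
    rw [Complex.mul_conj, Complex.normSq_eq_norm_sq, hz]
    push_cast
    rfl
  have hne : ∀ z : ℂ, ‖z‖ = R → z ≠ 0 := by
    rintro z hz rfl
    rw [norm_zero] at hz
    exact hR hz.symm
  have hconj : ∀ z : ℂ, ‖z‖ = R → (starRingEnd ℂ) z = (R : ℂ) ^ 2 / z := by
    intro z hz
    rw [eq_div_iff (hne z hz), mul_comm]
    exact hsq z hz
  have hA0 := hne A ha
  have hB0 := hne B hb
  have hC0 := hne C hc
  have hD0 := hne D hd
  rw [← Complex.conj_eq_iff_im]
  simp only [map_mul, map_sub, Complex.conj_conj]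
  rw [hconj A ha, hconj B hb, hconj C hc, hconj D hd]
  field_simp
  ring

/-- The projected points. -/
theorem geo (S : Finset (Fin 4 × (Fin m → Q4))) (K : Fin 4 → Q4) (hS : Col S K) :
    ∃ pt : Fin 4 × (Fin m → Q4) → ℂ,
      (∀ x ∈ S, ∀ y ∈ S, x ≠ y → pt x ≠ pt y) ∧
      (∀ x ∈ S, ∀ y ∈ S, ∀ z ∈ S, x ≠ y → x ≠ z → y ≠ z →
        ∀ (v : ℂ) (r1 r2 : ℝ), ¬ (pt y = pt x + r1 * v ∧ pt z = pt x + r2 * v)) ∧
      (∀ x ∈ S, ∀ y ∈ S, ∀ z ∈ S, ∀ w ∈ S, x ≠ y → x ≠ z → x ≠ w → y ≠ z → y ≠ w → z ≠ w →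
        ∀ (o : ℂ) (R : ℝ), ¬ (‖pt x - o‖ = R ∧ ‖pt y - o‖ = R ∧ ‖pt z - o‖ = R ∧
          ‖pt w - o‖ = R)) ∧
      (∀ x ∈ S, ∀ y ∈ S, ∀ z ∈ S, ∀ w ∈ S, x ≠ y → x ≠ z → x ≠ w → y ≠ z → y ≠ w → z ≠ w →
        ¬ (‖pt z - pt x‖ = ‖pt y - pt x‖ ∧ ‖pt w - pt x‖ = ‖pt y - pt x‖)) ∧
      ∀ (e : (Fin m → Q4) × (Fin m → Q4)), ∃ r : ℝ, ∀ s t : Fin 4, (s = 0 ∨ s = 1) →
        (t = 2 ∨ t = 3) → ‖pt (s, fe s e) - pt (t, fe t e)‖ = r ∧
          ‖pt (t, fe t e) - pt (s, fe s e)‖ = r := by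
  classical
  obtain ⟨c, hc1, hc2, hc3, hc4⟩ := exists_proj (S.image vec)
  have hmem : ∀ x ∈ S, vec x ∈ S.image vec := fun x hx => mem_image_of_mem _ hx
  have hne : ∀ {x y : Fin 4 × (Fin m → Q4)}, x ≠ y → vec x ≠ vec y := fun h h' => h (vec_inj h')
  have hinj : ∀ x ∈ S, ∀ y ∈ S, x ≠ y → LL (vec x) c ≠ LL (vec y) c := by
    intro x hx y hy hxy h
    apply hc1 _ (hmem x hx) _ (hmem y hy) (hne hxy)
    rw [LL_sub, h, sub_self]
  refine ⟨fun q => LL (vec q) c, hinj, ?_, ?_, ?_, ?_⟩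
  · rintro x hx y hy z hz hxy hxz hyz v r1 r2 ⟨h1, h2⟩
    beta_reduce at h1 h2
    obtain ⟨r, hr⟩ := hc2 _ (hmem x hx) _ (hmem y hy) _ (hmem z hz) (hne hxy.symm) (by
      rw [LL_sub, LL_sub]
      have e1 : LL (vec y) c - LL (vec x) c = r1 * v := by rw [h1]; ring
      have e2 : LL (vec z) c - LL (vec x) c = r2 * v := by rw [h2]; ring
      rw [e1, e2]
      simp only [map_mul, Complex.conj_ofReal]
      have e3 : (r1 : ℂ) * v * (r2 * (starRingEnd ℂ) v) =
          ((r1 * r2 * Complex.normSq v : ℝ) : ℂ) := by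
        push_cast
        rw [Complex.normSq_eq_conj_mul_self]
        ring
      rw [e3, Complex.ofReal_im])
    have k1 : vec x = vec x + (0 : ℂ) • (vec y - vec x) := by simp
    have k2 : vec y = vec x + (1 : ℂ) • (vec y - vec x) := by simp
    have k3 : vec z = vec x + (r : ℂ) • (vec y - vec x) := by rw [← hr]; simp
    obtain ⟨s1, s2, s3⟩ := slots hS hx hy hz hxy hxz hyz k1 k2 k3
    have k4 := congrFun hr none
    simp only [Pi.sub_apply, Pi.smul_apply, smul_eq_mul, vec_none] at k4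
    exact V_collinear s1 s2 s3 r k4
  · rintro x hx y hy z hz w hw hxy hxz hxw hyz hyw hzw o R ⟨h1, h2, h3, h4⟩
    beta_reduce at h1 h2 h3 h4
    have hR : R ≠ 0 := by
      rintro rfl
      apply hinj x hx y hy hxy
      rw [norm_eq_zero, sub_eq_zero] at h1 h2
      rw [h1, h2]
    obtain ⟨o', b, t1, t2, t3, t4, k1, k2, k3, k4⟩ := hc4 _ (hmem x hx) _ (hmem y hy) _ (hmem z hz)
      _ (hmem w hw) (hne hxy) (hne hxz) (hne hxw) (hne hyz) (hne hyw) (hne hzw) (by
        rw [LL_sub, LL_sub, LL_sub, LL_sub]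
        exact cross_real hR h1 h2 h3 h4)
    obtain ⟨s1, s2, s3⟩ := slots hS hx hy hz hxy hxz hyz k1 k2 k3
    obtain ⟨-, s4, s5⟩ := slots hS hx hy hw hxy hxw hyw k1 k2 k4
    obtain ⟨-, -, s6⟩ := slots hS hx hz hw hxz hxw hzw k1 k3 k4
    -- coordinates
    have e1 := congrFun k1 none
    have e2 := congrFun k2 none
    have e3 := congrFun k3 none
    have e4 := congrFun k4 none
    simp only [vec_none, Pi.add_apply, Pi.smul_apply, smul_eq_mul] at e1 e2 e3 e4
    have hb : b none ≠ 0 := by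
      intro hb
      rw [hb] at e1 e2
      exact s1 (V_inj (by rw [e1, e2]; ring))
    set β : ℂ := LL b c / b none with hβ
    set α : ℂ := LL o' c - o' none * β with hα
    have hL : ∀ t : ℂ, LL (o' + t • b) c = α + (o' none + t * b none) * β := by
      intro t
      rw [LL_add, LL_smul, hα, hβ]
      field_simp
      ring
    have g1 : LL (vec x) c = α + V x.1 * β := by rw [k1, hL, e1]
    have g2 : LL (vec y) c = α + V y.1 * β := by rw [k2, hL, e2]
    have g3 : LL (vec z) c = α + V z.1 * β := by rw [k3, hL, e3]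
    have g4 : LL (vec w) c = α + V w.1 * β := by rw [k4, hL, e4]
    have hβ0 : β ≠ 0 := by
      intro h0
      apply hinj x hx y hy hxy
      rw [g1, g2, h0]
      ring
    have hall : ∀ t : Fin 4, t = x.1 ∨ t = y.1 ∨ t = z.1 ∨ t = w.1 := by
      intro t
      revert s1 s2 s3 s4 s5 s6
      generalize x.1 = a1
      generalize y.1 = a2
      generalize z.1 = a3
      generalize w.1 = a4
      revert t a1 a2 a3 a4
      decide
    refine V_circle (o := (o - α) / β) (R := R / ‖β‖) fun t => ?_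
    have hgen : ∀ t : Fin 4, ‖α + V t * β - o‖ = R → ‖V t - (o - α) / β‖ = R / ‖β‖ := by
      intro t ht
      have hβn : ‖β‖ ≠ 0 := norm_ne_zero_iff.2 hβ0
      rw [eq_div_iff hβn, ← norm_mul, ← ht]
      congr 1
      field_simp
      ring
    rcases hall t with rfl | rfl | rfl | rfl
    · exact hgen _ (by rw [← g1]; exact h1)
    · exact hgen _ (by rw [← g2]; exact h2)
    · exact hgen _ (by rw [← g3]; exact h3)
    · exact hgen _ (by rw [← g4]; exact h4)
  · rintro x hx y hy z hz w hw hxy hxz hxw hyz hyw hzw ⟨h1, h2⟩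
    beta_reduce at h1 h2
    obtain ⟨l1, -, hl1⟩ := hc3 _ (hmem x hx) _ (hmem y hy) _ (hmem z hz) (by
      rw [LL_sub, LL_sub]; exact h1.symm)
    obtain ⟨l2, -, hl2⟩ := hc3 _ (hmem x hx) _ (hmem y hy) _ (hmem w hw) (by
      rw [LL_sub, LL_sub]; exact h2.symm)
    have k1 : vec x = vec x + (0 : ℂ) • (vec y - vec x) := by simp
    have k2 : vec y = vec x + (1 : ℂ) • (vec y - vec x) := by simp
    have k3 : vec z = vec x + l1 • (vec y - vec x) := by rw [← hl1]; simp
    have k4 : vec w = vec x + l2 • (vec y - vec x) := by rw [← hl2]; simp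
    obtain ⟨s1, s2, s3⟩ := slots hS hx hy hz hxy hxz hyz k1 k2 k3
    obtain ⟨-, s4, s5⟩ := slots hS hx hy hw hxy hxw hyw k1 k2 k4
    obtain ⟨-, -, s6⟩ := slots hS hx hz hw hxz hxw hzw k1 k3 k4
    have e3 := congrFun hl1 none
    have e4 := congrFun hl2 none
    simp only [vec_none, Pi.sub_apply, Pi.smul_apply, smul_eq_mul] at e3 e4
    have hb : V y.1 - V x.1 ≠ 0 := sub_ne_zero.2 fun h => s1 (V_inj h.symm)
    set β : ℂ := (LL (vec y) c - LL (vec x) c) / (V y.1 - V x.1) with hβ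
    have g2 : LL (vec y) c - LL (vec x) c = (V y.1 - V x.1) * β := by
      rw [hβ]; field_simp
    have g3 : LL (vec z) c - LL (vec x) c = (V z.1 - V x.1) * β := by
      rw [← LL_sub, hl1, LL_smul, LL_sub, g2, e3]; ring
    have g4 : LL (vec w) c - LL (vec x) c = (V w.1 - V x.1) * β := by
      rw [← LL_sub, hl2, LL_smul, LL_sub, g2, e4]; ring
    have hβ0 : β ≠ 0 := by
      intro h0
      apply hinj x hx y hy hxy
      rw [h0, mul_zero, sub_eq_zero] at g2
      exact g2.symm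
    have hβn : ‖β‖ ≠ 0 := norm_ne_zero_iff.2 hβ0
    have hall : ∀ t : Fin 4, t ≠ x.1 → t = y.1 ∨ t = z.1 ∨ t = w.1 := by
      intro t
      revert s1 s2 s3 s4 s5 s6
      generalize x.1 = a1
      generalize y.1 = a2
      generalize z.1 = a3
      generalize w.1 = a4
      revert t a1 a2 a3 a4
      decide
    refine V_star (s := x.1) (R := ‖LL (vec y) c - LL (vec x) c‖ / ‖β‖) fun t ht => ?_
    rcases hall t ht with rfl | rfl | rfl
    · rw [eq_div_iff hβn, ← norm_mul, g2]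
    · rw [eq_div_iff hβn, ← norm_mul, ← g3]; exact h1
    · rw [eq_div_iff hβn, ← norm_mul, ← g4]; exact h2
  · intro e
    set b : Option (Fin m) → ℂ := fun o => o.elim 1 (fun j => Q4.phi (e.2 j)) with hb
    set o : Option (Fin m) → ℂ := fun o => o.elim 0 (fun j => Q4.phi (e.1 j)) with ho
    have hvec : ∀ s, vec (s, fe s e) = o + V s • b := by
      intro s
      funext i
      cases i with
      | none =>
        rw [vec_none, Pi.add_apply, Pi.smul_apply, smul_eq_mul, ho, hb]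
        simp
      | some j =>
        rw [vec_some, Pi.add_apply, Pi.smul_apply, smul_eq_mul, ho, hb]
        simp [fe, V]
    have hdiff : ∀ s t, LL (vec (s, fe s e)) c - LL (vec (t, fe t e)) c =
        (V s - V t) * LL b c := by
      intro s t
      rw [hvec, hvec, LL_add, LL_add, LL_smul, LL_smul]
      ring
    refine ⟨√(1 + Q4.rho ^ 2) * ‖LL b c‖, fun s t hs ht => ?_⟩
    have h1 : ‖V s - V t‖ = √(1 + Q4.rho ^ 2) := by
      rw [← V_adj hs ht, Real.sqrt_sq (norm_nonneg _)]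
    have h2 : ‖LL (vec (s, fe s e)) c - LL (vec (t, fe t e)) c‖ =
        √(1 + Q4.rho ^ 2) * ‖LL b c‖ := by
      rw [hdiff, norm_mul, h1]
    exact ⟨h2, by rw [norm_sub_rev]; exact h2⟩

end Pool.Agent.H99DD
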